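import Pool.Agent.P.MP_6d14ae_al.Z.Tw

/-! The sharp threshold for all sizes: reduction to a transitive subgroup. -/

set_option autoImplicit false

namespace Pool.Agent.P.MP_6d14ae_al.Z

open MulAction T
open S hiding Dat Lay c_one c_div facN ext_b triK next chi chi_one

variable {G X A C : Type} [Group G] [Finite G] [MulAction G X] [AddCommGroup A]
  [DistribMulAction G A] [AddCommGroup C] [DistribMulAction G C]

theorem cix (d : Dat G X A) {q : ℕ} (hq : q.Prime) (hN : d.N1.Coprime q) (Y Z : Subgroup G)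
    (h : ∀ z ∈ Z, ∃ y ∈ Y, y ∈ Z ∧ d.c y = d.c z) : ¬q ∣ Y.relIndex Z := by
  have := Fact.mk hq
  let H := Z ⊓ c0 d.hc
  have h1 : Y.relIndex Z ≤ Y.relIndex H := (cardle _ Z H Set.univ fun z hz => by
      obtain ⟨y, hy, yz, e⟩ := h z⁻¹ (inv_mem hz)
      exact ⟨⟨(y⁻¹ * z⁻¹)⁻¹, H.inv_mem ⟨Z.mul_mem (inv_mem yz) (inv_mem hz), show d.c _ = 0 by
        rw [c_div, e, sub_self, smul_zero]⟩⟩, by simpa using hy, trivial⟩).trans (Nat.card_univ).le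
  rw [le_antisymm h1 (Subgroup.relIndex_le_of_le_right inf_le_left
    Subgroup.index_ne_zero_of_finite)]
  intro k
  obtain ⟨g, hg⟩ := exists_prime_orderOf_dvd_card' (G := H) q
    (k.trans (Subgroup.index_dvd_card _))
  exact hq.coprime_iff_not_dvd.1 hN.symm
    (hg ▸ orderOf_dvd_of_pow_eq_one (Subtype.ext (d.hP g g.2.2)))

variable [Group.IsSolvable G] [IsPretransitive G X] [Nonempty X]

theorem fin (e : Dat G X C) {r p b a k : ℕ} (hr : r.Prime) (hp : p.Prime)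
    (hrp : r ≠ p) (he : e.N2 = p ^ a) (hpN : e.N1.Coprime p) (hC : ∀ v : C, p ^ a • v = 0)
    (hn : ¬r ∣ Nat.card X) (hk : ¬p ∣ k) (ord : ∀ i, r ∣ p ^ i - 1 → k ∣ i)
    (h2k : ¬p ^ (2 * k) ∣ Nat.card X) {W Q K0 Y : Subgroup G} (hW : ∀ w ∈ W, w ^ r ^ b = 1)
    (hWc : ∀ w ∈ W, e.c w = 0) (hQ : ∀ u ∈ Q, u ^ p ^ a = 1) (hK0 : K0.Normal) (hY : Y.Normal)
    (QY : Q ≤ Y) (dY : ∀ y ∈ Y, ∃ u ∈ Q, u⁻¹ * y ∈ K0)
    (hWO : ∀ g, ∀ w ∈ W, ∃ w' ∈ W, ∃ o ∈ Y, g * w * g⁻¹ = w' * o)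
    (com : ∀ w ∈ W, ∀ w' ∈ W, w * w' * w⁻¹ * w'⁻¹ ∈ K0) (WL : W ≤ KK X Y hY)
    (nK : ¬W ≤ KK X K0 hK0) : False := by
  obtain ⟨K, ⟨hK, l0, hWK⟩, mx⟩ := wellFounded_gt.has_min
    {K : Subgroup G | ∃ h : K.Normal, K0 ≤ K ∧ ¬W ≤ KK X K h} ⟨K0, hK0, le_rfl, nK⟩
  have sub : ∀ (M : Subgroup G) (hM : M.Normal), M ≤ KK X M hM :=
    fun M hM n hn => mem_KK.2 fun y => ⟨n, hn, rfl⟩
  have clo : ∀ g : G, (∀ y : X, ∃ k ∈ K, g • y = k • y) → g ∈ K := fun g hg => by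
    by_contra h
    refine mx (KK X K hK) ⟨KK_normal K hK, l0.trans (sub K hK), fun l => hWK fun w hw =>
      mem_KK.2 fun y => ?_⟩ ⟨sub K hK, fun l => h (l (mem_KK.2 hg))⟩
    obtain ⟨n, hn, e1⟩ := mem_KK.1 (l hw) y
    exact e1 ▸ mem_KK.1 hn y
  have dO : ∀ o ∈ Y ⊔ K, ∃ u ∈ Q, u⁻¹ * o ∈ K := fun o ho => by
    obtain ⟨y, hy, m, hm, rfl⟩ := Subgroup.mem_sup_of_normal_right.1 ho
    obtain ⟨u, hu, h⟩ := dY y hy
    exact ⟨u, hu, mul_assoc u⁻¹ y m ▸ mul_mem (l0 h) hm⟩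
  obtain ⟨s, hs, N, hN, hl, l2, h1, h2, min⟩ := elem2 K (Y ⊔ K) ⟨le_sup_right, fun l =>
    hWK fun w hw => mem_KK.2 fun y =>
      let ⟨n, hn, e⟩ := mem_KK.1 (WL hw) y; ⟨n, l (Subgroup.mem_sup_left hn), e⟩⟩
  obtain rfl : s = p := by
    by_contra h
    refine hl.not_ge fun n hn => cop K (((Nat.coprime_primes hs hp).2 h).pow_right a) (h2 n hn) ?_
    obtain ⟨u, hu, h3⟩ := dO n (l2 hn)
    simpa [hQ u hu] using powmod K ⊤ (fun g _ m hm => hK.conj_mem m hm g)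
      (hK.conj_mem _ h3 u) (Subgroup.mem_top u) (p ^ a)
  have hWN : W ≤ KK X N hN := by_contra fun h => mx N ⟨hN, l0.trans hl.le, h⟩ hl
  have hL := KK_normal (X := X) N hN
  have hle := sub N hN
  let O := KK X N hN ⊓ cm K N
  have hO : O.Normal := inferInstance
  have NO : N ≤ O := fun n hn => ⟨hle hn, mem_cm.2 fun m hm => (cm_iff' m n).2 (h1 m hm n hn)⟩
  have sp : ∀ g ∈ O, ∀ y : X, ∃ n ∈ N, ∃ δ ∈ O, δ ∈ DD K hK y ∧ g = n * δ := fun g hg y => by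
    obtain ⟨n, hn, e1⟩ := mem_KK.1 hg.1 y
    exact ⟨n, hn, n⁻¹ * g, mul_mem (inv_mem (NO hn)) hg, inv_mul_DD K hK e1, by simp⟩
  have tr : ∀ (y : X) (g g' : G), (g : G ⧸ K) = g' → g ∈ DD K hK y → g' ∈ DD K hK y :=
    fun y g g' h hg => by simpa using mul_mem hg (le_DD K hK y (QuotientGroup.eq.1 h))
  have O1 : ∀ g ∈ O, g ^ s ∈ K := fun g hg => clo _ fun y => by
    obtain ⟨n, hn, δ, h4, h5, rfl⟩ := sp g hg y
    refine tr y _ _ ?_ (pow_mem h5 s)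
    rw [QuotientGroup.mk_pow, QuotientGroup.mk_pow, QuotientGroup.mk_mul,
      (mem_cm.1 h4.2 n hn).mul_pow, ← QuotientGroup.mk_pow K n,
      (QuotientGroup.eq_one_iff _).2 (h2 n hn), one_mul]
  have O2 : ∀ g ∈ O, ∀ g' ∈ O, g * g' * g⁻¹ * g'⁻¹ ∈ K := fun g hg g' hg' => clo _ fun y => by
    obtain ⟨n, hn, δ, h4, h5, rfl⟩ := sp g hg y
    obtain ⟨n', hn', δ', h6, h7, rfl⟩ := sp g' hg' y
    refine tr y _ _ ?_ (mul_mem (mul_mem (mul_mem h5 h7) (inv_mem h5)) (inv_mem h7))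
    have a1 := (mem_cm.1 (hO.conj_mem _ hg' δ).2 n hn).mul_inv_cancel
    have a2 := (mem_cm.1 (mul_mem (hO.conj_mem _ h6 δ) (inv_mem h6)).2 n' hn').mul_inv_cancel
    have a3 := (mem_cm.1 h4.2 n' hn').eq
    simp only [QuotientGroup.mk_mul, QuotientGroup.mk_inv, mul_inv_rev] at a1 a2 ⊢
    rw [← a2, show ∀ n δ n' δ' : G ⧸ K, n * δ * (n' * δ') * (δ⁻¹ * n⁻¹) =
      n * (δ * (n' * δ') * δ⁻¹) * n⁻¹ from fun _ _ _ _ => by group, a1, ← mul_assoc (δ : G ⧸ K), ← a3]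
    group
  have TO : Y ≤ cm K N := by
    obtain ⟨F, a1, a2⟩ := cnt K N Q hp (fun u => ⟨a, Subtype.ext (hQ u u.2)⟩) h1
      (fun u _ n hn => hN.conj_mem n hn u) fun u _ n _ h => hK.conj_mem n h u
    have l1 : F ≤ N ⊓ cm K Y := fun n hn => ⟨((a1 n).1 hn).1, mem_cm.2 fun t ht => by
      obtain ⟨u, hu, e1⟩ := dY t ht
      rw [← QuotientGroup.eq.2 (l0 e1)]
      exact ((cm_iff n u).2 (((a1 n).1 hn).2 u hu)).symm⟩
    have l2 := min (N ⊓ cm K Y) inferInstance ⟨fun k hk => ⟨hl.le hk, mem_cm.2 fun t _ => by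
      rw [(QuotientGroup.eq_one_iff k).2 hk]; exact Commute.one_right _⟩, fun h => by
        obtain ⟨i, hi⟩ := pw K N hp h1 h2
        rw [Subgroup.relIndex_eq_one.2 (l1.trans h), hi] at a2
        rcases i with _ | i
        · exact hl.not_ge (Subgroup.relIndex_eq_one.1 hi)
        · exact hp.one_lt.ne' (Nat.dvd_one.1 ((a2.dvd_iff dvd_rfl).1
            (dvd_pow_self s i.succ_ne_zero)))⟩ inf_le_left
    exact fun t ht => mem_cm.2 fun n hn => (mem_cm.1 (l2 hn).2 t ht).symm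
  refine states e hr hp hrp he hpN hC hn hk ord h2k hW hWc hK clo hO (hl.le.trans NO) O1 O2
    (fun g w hw => ?_) (fun w hw w' hw' => l0 (com w hw w' hw'))
    (fun w hw => mem_KK.2 fun y => let ⟨n, hn, e⟩ := mem_KK.1 (hWN hw) y; ⟨n, NO hn, e⟩)
    fun h => hWK fun w hw => sub K hK (inK hK hN clo h2
      (((Nat.coprime_primes hr hp).2 hrp).pow_left b) (hWN hw) (hW w hw)
      fun y n hn => le_DD K hK y (h n (NO hn) w hw))
  obtain ⟨w', hw', o, ho, e1⟩ := hWO g w hw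
  refine ⟨w', hw', o, ⟨?_, TO ho⟩, e1⟩
  simpa [e1] using mul_mem (inv_mem (hWN hw')) (hL.conj_mem w (hWN hw) g)

theorem red (d : Dat G X A) (e : Dat G X C) {r p b a k : ℕ} (hr : r.Prime) (hp : p.Prime)
    (hrp : r ≠ p) (hd : d.N2 = r ^ b) (he : e.N2 = p ^ a) (hrN : d.N1.Coprime r)
    (hpN : e.N1.Coprime p) (hC : ∀ v : C, p ^ a • v = 0)
    (hn : ¬r ∣ Nat.card X) (hk : ¬p ∣ k) (ord : ∀ i, r ∣ p ^ i - 1 → k ∣ i)
    (h2k : ¬p ^ (2 * k) ∣ Nat.card X) (hWc : ∀ w ∈ d.W, e.c w = 0) (hZ : ∀ u ∈ e.W, d.c u = 0)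
    (hH : ∀ g, (∃ w ∈ d.W, ∃ u ∈ e.W, g = w * u) ↔ ∃ u ∈ e.W, ∃ w ∈ d.W, g = u * w)
    {K N : Subgroup G} {B : AddSubgroup A} (hN : N.Normal) (I : Lay d K B)
    (h2 : ∀ a ∈ N, a ^ p ∈ K) (h3 : ∀ k ∈ KK X N hN, ∀ v, k • v - v ∈ B)
    (hW : d.W ≤ KK X N hN) (hWK : ¬d.W ≤ K) : False := by
  have hK := I.nor
  have hL := KK_normal (X := X) N hN
  have hle : N ≤ KK X N hN := fun n hn => mem_KK.2 fun y => ⟨n, hn, rfl⟩
  let T := KK X N hN ⊓ cz d.hc B I.sta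
  have hT : T.Normal := ⟨fun t ht g => ⟨hL.conj_mem t ht.1 g, by
    have := B.add_mem (I.sta g _ ht.2) (I.sta g _ (h3 t ht.1 (d.c g⁻¹)))
    have h4 := d.hc g g⁻¹
    rw [mul_inv_cancel, c_one] at h4
    show d.c _ ∈ B
    convert this using 1
    rw [d.hc, d.hc, mul_smul, smul_sub, eq_neg_of_add_eq_zero_left h4.symm]; abel⟩⟩
  let Q := e.W ⊓ KK X N hN
  have QT : Q ≤ T := fun u hu => ⟨hu.2, show d.c u ∈ B from hZ u hu.1 ▸ B.zero_mem⟩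
  let Y := Q ⊔ K
  have QY : Q ≤ Y := le_sup_left
  have KY : K ≤ Y := le_sup_right
  let Z := d.W ⊔ Y
  have WZ : d.W ≤ Z := le_sup_left
  have YZ : Y ≤ Z := le_sup_right
  have n1 : ∀ g, (∀ u ∈ Q, g⁻¹ * u * g ∈ Y) → g ∈ Subgroup.normalizer (Y : Set G) := fun g h => by
    refine inv_mem_iff.1 (Subgroup.mem_normalizer_fintype fun y hy => ?_)
    obtain ⟨w, hw, m, hm, rfl⟩ := Subgroup.mem_sup_of_normal_right.1 hy
    simpa [mul_assoc] using mul_mem (h w hw) (KY (hK.conj_mem' m hm g))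
  have n2 : ∀ g ∈ Subgroup.normalizer (Y : Set G), (∀ w ∈ d.W, g⁻¹ * w * g ∈ Z) →
      g ∈ Subgroup.normalizer (Z : Set G) := fun g hg h => by
    refine inv_mem_iff.1 (Subgroup.mem_normalizer_fintype fun y hy => ?_)
    have : Z ≤ Z.comap (MulAut.conj g⁻¹).toMonoidHom := sup_le (fun w hw => by simpa using h w hw)
      fun y hy => by simpa using YZ ((Subgroup.mem_normalizer_iff''.1 hg y).1 hy)
    exact this hy
  have W1 : d.W ≤ Subgroup.normalizer (Y : Set G) := fun w hw => n1 w fun u hu => by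
    obtain ⟨u', hu', w', hw', e1⟩ := (hH _).1 ⟨w⁻¹, inv_mem hw, u, hu.1, rfl⟩
    have a1 : u' ∈ Q := ⟨hu', by
      simpa [e1] using mul_mem (mul_mem (inv_mem (hW hw)) hu.2) (inv_mem (hW hw'))⟩
    have a2 := mul_mem (inv_mem (QT a1)) (hT.conj_mem' u (QT hu) w)
    rw [e1, mul_assoc, inv_mul_cancel_left] at a2
    rw [e1, mul_assoc]
    exact mul_mem (QY a1) (KY ((I.iff _ (mul_mem hw' hw)).1 a2.2))
  let H := Subgroup.normalizer (Y : Set G) ⊓ Subgroup.normalizer (Z : Set G)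
  have PH : e.W ≤ H := fun u hu =>
    have a1 := n1 u fun v hv => QY ⟨e.W.mul_mem (e.W.mul_mem (inv_mem hu) hv.1) hu,
      hL.conj_mem' v hv.2 u⟩
    ⟨a1, n2 u a1 fun w hw => by
      obtain ⟨w', hw', u', hu', e1⟩ := (hH _).2 ⟨u⁻¹, inv_mem hu, w, hw, rfl⟩
      have a2 := mul_mem (inv_mem (hW hw')) (hL.conj_mem' w (hW hw) u)
      rw [e1, mul_assoc, inv_mul_cancel_left] at a2
      rw [e1, mul_assoc]
      exact mul_mem (WZ hw') (YZ (QY ⟨mul_mem hu' hu, a2⟩))⟩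
  have WH : d.W ≤ H := le_inf W1 (WZ.trans Subgroup.le_normalizer)
  have YH : Y ≤ H := le_inf Subgroup.le_normalizer (YZ.trans Subgroup.le_normalizer)
  have NY : N ≤ Y := fun n hn => by
    obtain ⟨u, hu, e1⟩ := e.hs (e.c n)
    have uN := facN e N hN hn hu e1
    simpa using mul_mem (QY ⟨hu, hle uN⟩) (KY (cop K hpN (e.hP (u⁻¹ * n)
      (by rw [c_div, e1, sub_self, smul_zero]) ▸ K.one_mem) (h2 _ (mul_mem (inv_mem uN) hn))))
  have hQ : ∀ u ∈ e.W, u ^ p ^ a = 1 := fun u hu => by rw [← he]; exact e.hW u hu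
  have hW1 : ∀ w ∈ d.W, w ^ r ^ b = 1 := fun u hu => by rw [← hd]; exact d.hW u hu
  have : IsPretransitive H X := ⟨fun x y => by
    obtain ⟨g, rfl⟩ := exists_smul_eq G x y
    obtain ⟨t, ht, a1⟩ := fixc hp Y T Q (fun u => ⟨a, Subtype.ext (hQ u u.2.1)⟩)
      (cix e hp hpN Y T fun z hz => by
        obtain ⟨u, hu, e1⟩ := e.hs (e.c z)
        have := facN e T hT hz hu e1
        exact ⟨u, QY ⟨hu, this.1⟩, this, e1⟩) g fun u hu => hT.conj_mem' u (QT hu) g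
    have a2 := n1 _ a1
    obtain ⟨l, hl, a3⟩ := fixc hr Z (KK X N hN ⊓ Subgroup.normalizer (Y : Set G)) d.W
      (fun u => ⟨b, Subtype.ext (hW1 u u.2)⟩) (cix d hr hrN _ _ fun z hz => by
        obtain ⟨w, hw, e1⟩ := d.hs (d.c z)
        exact ⟨w, WZ hw, ⟨hW hw, W1 hw⟩, e1⟩) (g * t) fun w hw =>
      ⟨hL.conj_mem' w (hW hw) _, Subgroup.mul_mem _ (mul_mem (inv_mem a2) (W1 hw)) a2⟩
    have a4 := mul_mem a2 hl.2
    obtain ⟨n, hn, e1⟩ := mem_KK.1 (inv_mem (mul_mem ht.1 hl.1)) x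
    refine ⟨⟨g * t * l, a4, n2 _ a4 a3⟩ * ⟨n, YH (NY hn)⟩, ?_⟩
    show (g * t * l * n) • x = g • x
    rw [mul_smul, ← e1, smul_smul]
    simp [mul_assoc]⟩
  refine fin (G := H) (b := b) (W := d.W.subgroupOf H) (Q := Q.subgroupOf H) (K0 := K.subgroupOf H)
    (Y := Y.subgroupOf H)
    { c := fun g => e.c g, W := e.W.subgroupOf H, N1 := e.N1, N2 := e.N2, b := e.b
      hc := fun g h => e.hc g h
      hs := fun v => let ⟨u, hu, h⟩ := e.hs v; ⟨⟨u, PH hu⟩, hu, h⟩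
      hW := fun u hu => Subtype.ext (e.hW u hu), hP := fun g h => Subtype.ext (e.hP g h)
      hco := e.hco, hb := fun g x => e.hb g x, hg := e.hg } hr hp hrp he hpN hC hn hk ord h2k
    (fun w hw => Subtype.ext (hW1 w hw)) (fun w hw => hWc w hw)
    (fun u hu => Subtype.ext (hQ u hu.1)) inferInstance
    (Subgroup.normal_subgroupOf_of_le_normalizer inf_le_left) (fun u hu => QY hu)
    (fun y hy => ?_) (fun g w hw => ?_) (fun w hw w' hw' => ?_) (fun w hw => mem_KK.2 fun y => ?_)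
    fun h => hWK fun w hw => I.clo w fun y => ?_
  · obtain ⟨u, hu, m, hm, e1⟩ := Subgroup.mem_sup_of_normal_right.1 hy
    exact ⟨⟨u, PH hu.1⟩, hu, show u⁻¹ * H.subtype y ∈ K by rwa [← e1, inv_mul_cancel_left]⟩
  · have a1 : g.1 * w.1 * g.1⁻¹ ∈ (Z : Set G) :=
      (Subgroup.mem_normalizer_iff.1 g.2.2 w).1 (WZ hw)
    rw [Subgroup.coe_mul_of_left_le_normalizer_right _ _ W1] at a1
    obtain ⟨w', hw', o, ho, e1⟩ := a1
    exact ⟨⟨w', WH hw'⟩, hw', ⟨o, YH ho⟩, ho, Subtype.ext e1.symm⟩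
  · exact (I.iff _ (mul_mem (mul_mem (mul_mem hw hw') (inv_mem hw)) (inv_mem hw'))).1
      ((chi_one (d := d) (L := KK X N hN)
      (k := ⟨w, hW hw⟩ * ⟨w', hW hw'⟩ * ⟨w, hW hw⟩⁻¹ * ⟨w', hW hw'⟩⁻¹) (h := h3)).1 (by
      simp only [map_mul, map_inv, mul_inv_cancel_comm, mul_inv_cancel]))
  · obtain ⟨n, hn, e1⟩ := mem_KK.1 (hW hw) y
    exact ⟨⟨n, YH (NY hn)⟩, NY hn, e1⟩
  · obtain ⟨n, hn, e1⟩ := mem_KK.1 (h (show (⟨w, WH hw⟩ : H) ∈ d.W.subgroupOf H from hw)) y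
    exact ⟨n, hn, e1⟩

end Pool.Agent.P.MP_6d14ae_al.Z

namespace Pool.Agent.P.MP_6d14ae_al.Z

open MulAction T J

variable {G X E : Type} [Group G] [Finite G] [MulAction G X] [AddCommGroup E]
  [DistribMulAction G E] (κ : G ≃ E)
  (hκ : ∀ g h, κ (g * h) = κ g + g • κ h) (a : X → E) (ha : ∀ (g : G) x, a (g • x) = g • a x)
  (hg : AddSubgroup.closure (Set.range a) = ⊤)

include hκ ha hg

theorem necAll [FaithfulSMul G X] [IsPretransitive G X] {r : ℕ} (hr : r.Prime)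
    (h1 : r ∣ Nat.card G) (h2 : ¬r ∣ Nat.card X) :
    (∃ p e : ℕ, p.Prime ∧ 0 < e ∧ p ^ (2 * e) ∣ Nat.card X ∧ r ∣ p ^ e - 1) ∨
      ∃ p : ℕ, p.Prime ∧ p ∣ orderOf (p : ZMod r) ∧
        p ^ (orderOf (p : ZMod r) + 1) ∣ Nat.card X := by
  have : Nonempty X := (Nat.card_ne_zero.1 fun h => h2 (h ▸ dvd_zero r)).1
  have := Fact.mk hr
  by_contra H
  rw [not_or] at H
  have := solv κ hκ
  have sp : ∀ q : ℕ, q.Prime → ∃ j N, Nat.card G = N * q ^ j ∧ N.Coprime q := fun q hq => by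
    obtain ⟨j, N, k1, k2⟩ :=
      Nat.exists_eq_pow_mul_and_not_dvd (Nat.card_pos (α := G)).ne' q hq.one_lt.ne'
    exact ⟨j, N, k2.trans (mul_comm _ _), (hq.coprime_iff_not_dvd.2 k1).symm⟩
  obtain ⟨b, M, hM, cM⟩ := sp r hr
  let _ := S.tact (G := G) (E := E) (r ^ b)
  obtain ⟨d, d1, d2, d3, d4⟩ := mkd κ hκ a ha hg hM (cM.pow_right b)
  obtain ⟨K, N, B, p, hN, I, hp, pn, k1, k2, k3, k4, k5, k6, k7⟩ := find (d := d)
    (by rw [d2]; exact (hr.coprime_iff_not_dvd.2 h2).pow_left b) ⊥ ⊥ (lay_bot d) fun h => by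
      have := (card_sub κ hκ (cM.pow_right b).symm (hM.trans (mul_comm _ _))).1
      rw [← d3, le_bot_iff.1 h, Subgroup.card_bot] at this
      rw [hM, ← this, mul_one] at h1
      exact hr.one_lt.ne' (Nat.eq_one_of_dvd_coprimes cM h1 dvd_rfl)
  have hrp : r ≠ p := fun e => h2 (e ▸ pn)
  obtain ⟨j, L, hL, cL⟩ := sp p hp
  let _ := S.tact (G := G) (E := E) (p ^ j)
  obtain ⟨e, e1, e2, e3, e4⟩ := mkd κ hκ a ha hg hL (cL.pow_right j)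
  have hZ : ∀ u ∈ e.W, d.c u = 0 := fun u hu => d4 u (by
    obtain ⟨t, ht⟩ := (Nat.coprime_pow_primes j b hp hr hrp.symm).dvd_of_dvd_mul_right
      (hM ▸ hL ▸ dvd_mul_left _ _)
    rw [e3] at hu
    rw [mem_tor, ht, mul_nsmul, show p ^ j • κ u = 0 from hu, smul_zero])
  have hWc : ∀ u ∈ d.W, e.c u = 0 := fun u hu => e4 u (by
    obtain ⟨t, ht⟩ := (Nat.coprime_pow_primes b j hr hp hrp).dvd_of_dvd_mul_right
      (hL ▸ hM ▸ dvd_mul_left _ _)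
    rw [d3] at hu
    rw [mem_tor, ht, mul_nsmul, show r ^ b • κ u = 0 from hu, smul_zero])
  have hH : ∀ g, (∃ w ∈ d.W, ∃ u ∈ e.W, g = w * u) ↔ ∃ u ∈ e.W, ∃ w ∈ d.W, g = u * w := fun g => by
    rw [d3, e3]
    exact ⟨fun ⟨w, hw, u, hu, h⟩ => h ▸ swap κ hκ hw hu, fun ⟨u, hu, w, hw, h⟩ => h ▸ swap κ hκ hu hw⟩
  have k0 : 0 < orderOf (p : ZMod r) := isOfFinOrder_iff_pow_eq_one.2
    ⟨r - 1, Nat.sub_pos_of_lt hr.one_lt, ZMod.pow_card_sub_one_eq_one fun e =>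
      h2 (((ZMod.natCast_eq_zero_iff p r).1 e).trans pn)⟩ |>.orderOf_pos
  by_cases hk : p ∣ orderOf (p : ZMod r)
  · exact core d e hr hp hrp d2 e2 (e1 ▸ cL) (fun v => Subtype.ext v.2) (fun i hi s1 s2 =>
      H.2 ⟨p, hp, hk, (pow_dvd_pow p (Nat.succ_le_succ
        (Nat.le_of_dvd hi ((ord_iff hp.pos i).1 s2)))).trans s1⟩) hZ hH hN I k1 k2 k3 k4 k5 k6 k7
  · exact red d e hr hp hrp d2 e2 (d1 ▸ cM) (e1 ▸ cL) (fun v => Subtype.ext v.2) h2 hk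
      (fun i => (ord_iff hp.pos i).1) (fun h => H.1 ⟨p, _, hp, k0, h, (ord_iff hp.pos _).2 dvd_rfl⟩)
      hWc hZ hH hN I k3 k5 k6 k7

end Pool.Agent.P.MP_6d14ae_al.Z
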