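import Pool.Agent.P.MP_6d14ae_al.Z.Abs

/-! Fixed points inside orbits of normal subgroups. -/

set_option autoImplicit false

namespace Pool.Agent.P.MP_6d14ae_al.Z

open MulAction T
open S hiding Dat Lay c_one c_div facN ext_b triK next chi chi_one

variable {G X C : Type} [Group G] [Finite G] [MulAction G X] [AddCommGroup C]
  [DistribMulAction G C]

theorem fixc {q : ℕ} (hq : q.Prime) (Y Z Q : Subgroup G) (hQ : IsPGroup q Q)
    (h : ¬q ∣ Y.relIndex Z) (g : G) (h2 : ∀ u ∈ Q, g⁻¹ * u * g ∈ Z) :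
    ∃ z ∈ Z, ∀ u ∈ Q, (g * z)⁻¹ * u * (g * z) ∈ Y := by
  have := Fact.mk hq
  let f : Q →* Z := (((MulAut.conj g⁻¹).toMonoidHom).comp Q.subtype).codRestrict Z
    fun h => by simpa using h2 h h.2
  let _ : MulAction Q (Z ⧸ Y.subgroupOf Z) := MulAction.compHom _ f
  obtain ⟨⟨z⟩, hz⟩ := hQ.nonempty_fixed_point_of_prime_not_dvd_card (Z ⧸ Y.subgroupOf Z) h
  refine ⟨z, z.2, fun u hu => ?_⟩
  have h3 : (g⁻¹ * u * g⁻¹⁻¹ * z)⁻¹ * z ∈ Y :=
    (QuotientGroup.eq (s := Y.subgroupOf Z)).1 (hz ⟨u, hu⟩)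
  convert Y.inv_mem h3 using 1
  group

omit [Finite G] in
theorem DD_tr {K : Subgroup G} (hK : K.Normal) {k : G} (hk : k ∈ K) (y : X) :
    DD K hK (k • y) ≤ DD K hK y := fun g ⟨k', hk', e⟩ =>
  ⟨g * k⁻¹ * g⁻¹ * k' * k, mul_mem (mul_mem (hK.conj_mem _ (inv_mem hk) g) hk') hk, by
    rw [mul_smul, mul_smul, ← e]; simp [mul_smul]⟩

omit [Finite G] in
theorem DD_back {K : Subgroup G} (hK : K.Normal) {z u : G} {y : X} (h : z⁻¹ * u * z ∈ DD K hK y) :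
    u ∈ DD K hK (z • y) := by simpa [mul_assoc] using DD_conj hK z h

theorem rdvd [IsPretransitive G X] {K : Subgroup G} (hK : K.Normal) (y : X) {Z : Subgroup G}
    (h : DD K hK y ≤ Z) : (stabilizer G y).relIndex (DD K hK y) * (DD K hK y).relIndex Z ∣
      Nat.card X := by
  rw [Subgroup.relIndex_mul_relIndex _ _ _ (st_le K hK y) h, ← index_stabilizer_of_transitive G y]
  exact Subgroup.relIndex_dvd_index_of_le ((st_le K hK y).trans h)

theorem fixo [IsPretransitive G X] {r : ℕ} (hr : r.Prime) (hn : ¬r ∣ Nat.card X)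
    {U K N : Subgroup G} (hU : IsPGroup r U) (hK : K.Normal) (hN : N.Normal) (l : K ≤ N) (y : X)
    (h : U ≤ DD N hN y) : ∃ m ∈ N, U ≤ DD K hK (m • y) := by
  obtain ⟨z, ⟨m, hm, e⟩, hz⟩ := fixc hr (DD K hK y) (DD N hN y) U hU
    (fun k => hn (k.trans ((dvd_mul_left _ _).trans (rdvd hK y (DD_mono hK hN l y))))) 1
    fun u hu => by simpa using h hu
  exact ⟨m, hm, fun u hu => e ▸ DD_back hK (by simpa using hz u hu)⟩

variable (e : Dat G X C) [Group.IsSolvable G] [IsPretransitive G X]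

theorem hall {q a r : ℕ} (hq : q.Prime) (hr : r.Prime) (hrq : r ≠ q) (he : e.N2 = q ^ a)
    (hn : ¬r ∣ Nat.card X) {U : Subgroup G} (hU : IsPGroup r U) (M : Subgroup G) :
    ∀ hM : M.Normal, (∀ (y : X) i, 0 < i → q ^ i ∣ (stabilizer G y).relIndex (DD M hM y) →
      ¬r ∣ q ^ i - 1) → ∀ y : X, U ≤ DD M hM y →
      ∃ h ∈ M, e.c h = 0 ∧ ∀ u ∈ U, u • h • y = h • y := by
  induction M using WellFoundedLT.induction with
  | _ M ih =>
  intro hM sm y hy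
  by_cases h0 : M = ⊥
  · subst h0
    refine ⟨1, one_mem _, c_one e, fun u hu => ?_⟩
    obtain ⟨k, rfl, e⟩ := hy hu
    simpa using e
  obtain ⟨K, ⟨hK, l⟩, mx⟩ := wellFounded_gt.has_min {K : Subgroup G | K.Normal ∧ K < M}
    ⟨⊥, inferInstance, bot_lt_iff_ne_bot.2 h0⟩
  obtain ⟨s, hs, N, hN, l1, l2, k1, k2, -⟩ := elem2 K M l
  obtain rfl : N = M := l2.eq_of_not_lt fun h => mx N ⟨hN, h⟩ l1
  have fac := fun y : X =>
    Subgroup.relIndex_mul_relIndex _ _ _ (st_le K hK y) (DD_mono hK hM l.le y)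
  have IH := ih K l hK fun y i hi h => sm y i hi (fac y ▸ h.mul_right _)
  obtain ⟨m, hm, h1⟩ := fixo hr hn hU hK hM l.le y hy
  by_cases hsq : s = q
  · subst hsq
    have c1 := fun a ha b hb => le_DD K hK (m • y) (k1 a ha b hb)
    have c2 := fun a ha => le_DD K hK (m • y) (k2 a ha)
    obtain ⟨F, a1, a2⟩ := cnt (DD K hK (m • y)) N U hr hU c1 (fun u _ n hn => hM.conj_mem n hn u)
      fun u hu n _ h => mul_mem (mul_mem (h1 hu) h) (inv_mem (h1 hu))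
    have l3 : F ≤ N := fun n hn => ((a1 n).1 hn).1
    obtain ⟨i, hi⟩ := pw _ N hs c1 c2
    obtain ⟨c, hc⟩ := pw _ F hs (fun a ha b hb => c1 a (l3 ha) b (l3 hb)) fun a ha => c2 a (l3 ha)
    have l4 : c ≤ i := (Nat.pow_le_pow_iff_right hs.one_lt).1
      (hi ▸ hc ▸ Subgroup.relIndex_le_of_le_right l3 Subgroup.index_ne_zero_of_finite)
    have l5 : i ≤ c := by
      by_contra k
      refine sm (m • y) (i - c) (by omega) ?_ (ar hs hr hrq l4 (hi ▸ hc ▸ a2))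
      rw [← fac, rel_eq hK hM, hi]
      exact (pow_dvd_pow s (Nat.sub_le i c)).mul_left _
    have l6 : N ≤ F := eqN (fun n hn => (a1 n).2 ⟨hn.2, fun u hu =>
      mul_mem (mul_mem (mul_mem (inv_mem hn.1) (h1 hu)) hn.1) (inv_mem (h1 hu))⟩) l3
      (by rw [hi, hc]; exact Nat.pow_le_pow_right hs.pos l5)
    obtain ⟨h, b1, b2⟩ := IH y fun u hu => by
      have := mul_mem (((a1 _).1 (l6 (inv_mem hm))).2 u hu) (h1 hu)
      rw [← inv_smul_smul m y]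
      exact DD_back hK (by simpa using this)
    exact ⟨h, l.le b1, b2⟩
  · obtain ⟨u, hu, e1⟩ := e.hs (e.c m)
    have uM := facN e N hM hm hu e1
    have uK : u ∈ K := cop K (((Nat.coprime_primes hs hq).2 hsq).pow_right a) (k2 u uM)
      (he ▸ e.hW u hu ▸ K.one_mem)
    obtain ⟨h, b1, b2, b3⟩ := IH ((u⁻¹ * m) • y) (h1.trans (by
      simpa [smul_smul] using DD_tr hK uK ((u⁻¹ * m) • y)))
    exact ⟨h * (u⁻¹ * m), mul_mem (l.le b1) (mul_mem (inv_mem uM) hm),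
      by rw [e.hc, b2, c_div, e1]; simp, fun v hv => by rw [mul_smul h, b3 v hv]⟩

omit [Finite G] [Group.IsSolvable G] [IsPretransitive G X] in
theorem silent {h u ρ : G} {y : X} (h1 : e.c h = 0) (h2 : e.c u = e.b y) (h3 : e.c ρ = 0)
    (h4 : ρ • h • y = h • y) : e.c ((h * u)⁻¹ * (ρ * (h * u))) = 0 := by
  rw [c_div, e.hc ρ, h3, e.hc, h1, h2, zero_add, zero_add, ← e.hb, ← e.hb, h4, sub_self, smul_zero]

theorem qa {q a r b : ℕ} (hq : q.Prime) (hr : r.Prime) (hrq : r ≠ q) (he : e.N2 = q ^ a)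
    (hC : ∀ v : C, q ^ a • v = 0) (hn : ¬r ∣ Nat.card X)
    (sm : ∀ i, 0 < i → q ^ i ∣ Nat.card X → ¬r ∣ q ^ i - 1) {W M S : Subgroup G}
    (hW : ∀ w ∈ W, w ^ r ^ b = 1) (hWc : ∀ w ∈ W, e.c w = 0) (hM : M.Normal) (hS : S.Normal)
    (l1 : M ≤ S) (l2 : W ≤ S) (l3 : ∀ y : X, S ≤ DD M hM y)
    (gn : ∀ T, M ≤ T → (∀ g, ∀ w ∈ W, g⁻¹ * w * g ∈ T) → S ≤ T) : ∀ s ∈ S, s ^ e.N1 ∈ M := by
  let T := S ⊓ (M ⊔ c0 e.hc)
  have MT : M ≤ T := le_inf l1 le_sup_left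
  let Z : G → Prop := fun g => ∀ ρ ∈ T, ρ ^ r ^ b ∈ M → g⁻¹ * ρ * g ∈ T
  have Zm : ∀ g g', Z g → Z g' → Z (g * g') := fun g g' h h' ρ h1 h2 => by
    have := h' _ (h ρ h1 h2) (by
      have := hM.conj_mem _ h2 g⁻¹
      rwa [← conj_pow, inv_inv] at this)
    simpa [mul_assoc] using this
  have Z0 : ∀ h, e.c h = 0 → Z h := fun h hh ρ h1 _ => ⟨hS.conj_mem' _ h1.1 h,
    mul_mem (mul_mem ((M ⊔ c0 e.hc).inv_mem (Subgroup.mem_sup_right hh)) h1.2)
      (Subgroup.mem_sup_right hh)⟩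
  obtain ⟨j, l, k1, k2⟩ :=
    Nat.exists_eq_pow_mul_and_not_dvd (Nat.card_pos (α := G)).ne' r hr.one_lt.ne'
  have Zu : ∀ u y, e.c u = e.b y → Z u := fun u y hu ρ h1 h2 => by
    obtain ⟨m, hm, h, hh, rfl⟩ := Subgroup.mem_sup_of_normal_left.1 h1.2
    have hS' : h ^ l ∈ S := pow_mem (by simpa using mul_mem (inv_mem (l1 hm)) h1.1) l
    have h0 : e.c (h ^ l) = 0 := (c0 e.hc).pow_mem hh l
    obtain ⟨k, a1, a2, a3⟩ := hall e hq hr hrq he hn (U := Subgroup.zpowers (h ^ l))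
      (by
        rintro ⟨_, z, rfl⟩
        refine ⟨j, Subtype.ext ?_⟩
        show ((h ^ l) ^ z) ^ r ^ j = 1
        rw [← zpow_natCast, ← zpow_mul, mul_comm, zpow_mul, zpow_natCast, ← pow_mul, mul_comm,
          ← k2, pow_card_eq_one', one_zpow]) M hM
      (fun y i hi h => sm i hi (h.trans ((dvd_mul_right _ _).trans (rdvd hM y le_top)))) y
      ((Subgroup.zpowers_le.2 hS').trans (l3 y))
    have b1 : (k * u)⁻¹ * (h ^ l * (k * u)) ∈ T := ⟨mul_assoc _ _ (k * u) ▸ hS.conj_mem' _ hS' _,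
      Subgroup.mem_sup_right (silent e a2 hu h0 (a3 _ (Subgroup.mem_zpowers _)))⟩
    have cp : ∀ n, (u⁻¹ * (m * h) * u) ^ n = u⁻¹ * (m * h) ^ n * u := fun n => by
      simpa using conj_pow (a := u⁻¹) (b := m * h) (i := n)
    refine cop T ((hr.coprime_iff_not_dvd.2 k1).pow_left b) (cp _ ▸ MT (hM.conj_mem' _ h2 u)) ?_
    have b2 := powmod M ⊤ (fun g _ m hm => hM.conj_mem m hm g) hm (Subgroup.mem_top h) l
    have b3 := mul_mem b2 (mul_mem (hM.conj_mem _ (inv_mem a1) (h ^ l)) a1)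
    have := mul_mem (MT (hM.conj_mem' _ b3 u)) b1
    rw [cp]
    convert this using 1
    group
  have all : ∀ t g, e.c g = t → Z g := gen e (pow_pos hq.pos a) hC _ Z0 fun t x ih g' h => by
    obtain ⟨g, -, rfl⟩ := e.hs t
    obtain ⟨u, -, hu⟩ := e.hs (e.b (g⁻¹ • x))
    have := Zm _ _ (Zm _ _ (ih g rfl) (Zu u _ hu)) (Z0 ((g * u)⁻¹ * g') (by
      rw [c_div, h, e.hc, hu, e.hb]; simp))
    rwa [mul_inv_cancel_left] at this
  intro s hs
  obtain ⟨m, hm, h, hh, rfl⟩ := Subgroup.mem_sup_of_normal_left.1 (gn T MT (fun g w hw =>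
    all _ g rfl w ⟨l2 hw, Subgroup.mem_sup_right (hWc w hw)⟩ (hW w hw ▸ M.one_mem)) hs).2
  simpa [e.hP h hh] using powmod M ⊤ (fun g _ m hm => hM.conj_mem m hm g) hm
    (Subgroup.mem_top h) e.N1

end Pool.Agent.P.MP_6d14ae_al.Z
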