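import Pool.Agent.P.MP_6d14ae_al.Z.Map

/-! The contradiction for hyperplane stabilisers. -/

set_option autoImplicit false

namespace Pool.Agent.P.MP_6d14ae_al.Z

open MulAction T Module
open S hiding Dat Lay c_one c_div facN ext_b triK next chi chi_one

theorem indep {C V U ι : Type} [AddCommGroup C] [AddCommGroup V] [AddCommGroup U]
    (M : C → V →+ U) (H : ι → AddSubgroup V) (hH : ∀ i j, i ≠ j → H i ⊔ H j = ⊤) (v : ι → C)
    (h : ∀ i t, ∀ n ∈ H i, M (t + v i) n = M t n) {i j : ι} (hij : i ≠ j) (t : C) (n : V) :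
    M (t + v j + v i) n - M (t + v j) n = M (t + v i) n - M t n := by
  obtain ⟨a, ha, b, hb, rfl⟩ := AddSubgroup.mem_sup.1 (show n ∈ H i ⊔ H j from hH i j hij ▸ trivial)
  simp only [map_add]
  rw [h i _ a ha, h i _ a ha, add_right_comm t, h j _ b hb, h j _ b hb]
  abel

variable {G X C V U : Type} [Group G] [MulAction G X] [AddCommGroup C] [DistribMulAction G C]
  [AddCommGroup V] [DistribMulAction G V] [AddCommGroup U] [DistribMulAction G U]
  {e : Dat G X C} {p a r : ℕ} (s : St e V p a r)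

theorem last [Finite G] [Finite X] [Finite V] [Finite U] [Nontrivial U] {k : ℕ} (hk : ¬p ∣ k)
    (ord : ∀ i, r ∣ p ^ i - 1 → k ∣ i) (RW : ∀ x, ∀ w ∈ s.W, ∀ v ∈ s.R x, w • v ∈ s.R x)
    (Ri : ∀ x, (s.R x).index = p ^ k) (R0 : ∀ v, (∀ x, v ∈ s.R x) → v = 0)
    (hO : ∀ o ∈ s.O, ∀ u : U, o • u = u) (M : C → V →+ U) (m1 : Function.Surjective (M 0))
    (m2 : ∀ g n, M (e.c g) n = g • M 0 (g⁻¹ • n))
    (m3 : ∀ t x, ∀ n ∈ s.R x, M (t + e.b x) n = M t n)
    (m4 : ∀ x, ∃ t n, M (t + e.b x) n ≠ M t n) : False := by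
  classical
  have := Fact.mk s.hp
  have k0 : k ≠ 0 := fun h => hk (h ▸ dvd_zero p)
  have hP : IsPGroup p e.W := fun u => ⟨a, Subtype.ext (s.he ▸ e.hW u u.2)⟩
  have mx : ∀ x D, s.R x < D → (∀ w ∈ s.W, ∀ v ∈ D, w • v ∈ D) → D = ⊤ := fun x D h hD => by
    obtain ⟨i, h1, h2⟩ := idx s.hp s.hr s.hrp s.hW s.hV s.VW D hD
    have h3 := AddSubgroup.index_strictAnti h
    simp only [h1, Ri] at h3
    rw [Nat.eq_zero_of_dvd_of_lt (ord i h2) ((Nat.pow_lt_pow_iff_right s.hp.one_lt).1 h3),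
      pow_zero] at h1
    exact AddSubgroup.index_eq_one.1 h1
  have nt : ∀ x, s.R x ≠ ⊤ := fun x h => by
    have := Ri x
    rw [h, AddSubgroup.index_top] at this
    exact (Nat.one_lt_pow k0 s.hp.one_lt).ne this
  let φ := (DistribMulAction.toAddMonoidEnd G V).prod (DistribMulAction.toAddMonoidEnd G U)
  have φO : ∀ o ∈ s.O, φ o = 1 := fun o ho =>
    Prod.ext (AddMonoidHom.ext (s.hO o ho)) (AddMonoidHom.ext (hO o ho))
  obtain ⟨ι, i1, i2, i3⟩ := ks2 hk φ s.W e.W hP s.hV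
    (fun w hw w' hw' => by
      rw [← map_mul, ← map_mul, ← one_mul (φ (w' * w)), ← φO _ (s.com w hw w' hw'), ← map_mul]
      congr 1; group)
    (fun g w hw => by
      obtain ⟨w', hw', o, ho, h⟩ := s.hWO g w hw
      exact ⟨w', hw', by rw [h, map_mul, φO o ho, mul_one]⟩) (M 0) m1
    (fun w hw v => by
      have := m2 w (w • v)
      rwa [s.hWc w hw, inv_smul_smul] at this) s.R RW mx Ri R0
  let K := GaloisField p k
  let _ : Module K V := Module.compHom V ((RingHom.fst _ _).comp ι)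
  let _ : Module K U := Module.compHom U ((RingHom.snd _ _).comp ι)
  have c1 : ∀ (g : e.W) (c : K) (v : V), g.1 • c • v = c • g.1 • v := fun g c v =>
    DFunLike.congr_fun (congrArg Prod.fst (i1 c g g.2)) v
  have c2 : ∀ (g : e.W) (c : K) (v : U), g.1 • c • v = c • g.1 • v := fun g c v =>
    DFunLike.congr_fun (congrArg Prod.snd (i1 c g g.2)) v
  have : SMulCommClass e.W K V := ⟨c1⟩
  have : SMulCommClass e.W K U := ⟨c2⟩
  let I := Set.range s.R
  let _ := Fintype.ofFinite I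
  have hf : ∀ i : I, ∃ f : V →ₗ[K] K, (∀ n, f n = 0 ↔ n ∈ i.1) ∧ ∃ n, f n = 1 := by
    rintro ⟨_, x, rfl⟩
    let D : Submodule K V := { s.R x with smul_mem' := fun c v h => i3 c x v h }
    have h1 : Nat.card (V ⧸ D) = p ^ k := Ri x
    have : Finite (V ⧸ D) := Finite.of_surjective _ D.mkQ_surjective
    rw [Module.natCard_eq_pow_finrank (K := K), GaloisField.card p k k0] at h1
    have h2 : finrank K (V ⧸ D) = finrank K K := by
      rw [finrank_self]
      exact Nat.pow_right_injective (Nat.one_lt_pow k0 s.hp.one_lt) (h1.trans (pow_one _).symm)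
    let E := LinearEquiv.ofFinrankEq _ _ h2
    obtain ⟨n, hn⟩ := D.mkQ_surjective (E.symm 1)
    exact ⟨E.toLinearMap.comp D.mkQ, fun n => E.map_eq_zero_iff.trans
      (Submodule.Quotient.mk_eq_zero D), n, by simp [hn]⟩
  choose f f1 n0 f2 using hf
  have top : ∀ i j : I, i ≠ j → i.1 ⊔ j.1 = ⊤ := by
    rintro ⟨_, x, rfl⟩ ⟨_, y, rfl⟩ h
    have inv : ∀ w ∈ s.W, ∀ v ∈ s.R x ⊔ s.R y, w • v ∈ s.R x ⊔ s.R y := fun w hw v hv => by
      obtain ⟨a, ha, b, hb, rfl⟩ := AddSubgroup.mem_sup.1 hv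
      exact AddSubgroup.mem_sup.2 ⟨_, RW x w hw a ha, _, RW y w hw b hb, (smul_add _ _ _).symm⟩
    refine mx x _ (left_lt_sup.2 fun l => nt x (mx y _ (lt_of_le_of_ne l fun k => ?_) (RW x))) inv
    exact h (Subtype.ext k.symm)
  let A : I → Set C := fun i => {v | ∀ t, ∀ n ∈ i.1, M (t + v) n = M t n}
  have hv : ∀ i : I, ∃ v ∈ A i, ∃ n, M v n ≠ M 0 n := fun i => by
    by_contra! h
    have h1 : ∀ t, ∀ v ∈ A i, ∀ n, M (t + v) n = M t n :=
      gen e (pow_pos s.hp.pos a) s.hC _ (by simpa using h) fun t x ih v hv n => by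
        by_cases hx : i = ⟨s.R x, x, rfl⟩
        · subst hx
          rw [add_assoc, ih _ (fun t n hn => by rw [← add_assoc, hv _ n hn, m3 t x n hn]),
            ih _ fun t => m3 t x]
        · have := indep M (fun j : Bool => if j then i.1 else s.R x)
            (by rintro (_ | _) (_ | _) h <;> simp_all [top i ⟨s.R x, x, rfl⟩ hx, sup_comm])
            (fun j => if j then v else e.b x) (by
              rintro (_ | _) t
              · exact m3 t x
              · exact hv t) (i := true) (j := false) (by simp) t n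
          simpa [ih v hv n, sub_eq_zero] using this
    obtain ⟨_, x, rfl⟩ := i
    obtain ⟨t, n, h2⟩ := m4 x
    exact h2 (h1 t _ (fun t => m3 t x) n)
  choose v v1 n1 v2 using hv
  let M0 : V →ₗ[K] U := { M 0 with map_smul' := fun c => i2 c }
  have lin : ∀ t (c : K) n, M t (c • n) = c • M t n := fun t c n => by
    obtain ⟨g, hg, rfl⟩ := e.hs t
    rw [m2, m2 g n, c1 ⟨g⁻¹, inv_mem hg⟩, ← c2 ⟨g, hg⟩]
    exact congrArg _ (i2 c _)
  have rk : ∀ i n, M (v i) n - M 0 n = f i n • (M (v i) (n0 i) - M 0 (n0 i)) := fun i n => by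
    have := v1 i 0 (n - f i n • n0 i) ((f1 i _).1 (by simp [f2]))
    rw [zero_add, map_sub, map_sub, lin, lin] at this
    rw [smul_sub]
    exact sub_eq_sub_iff_sub_eq_sub.1 this
  have s1 : ∀ S : Finset I, ∀ i ∉ S, ∀ n,
      M (∑ j ∈ S, v j + v i) n - M (∑ j ∈ S, v j) n = M (v i) n - M 0 n := fun S => by
    induction S using Finset.induction_on with
    | empty => simp
    | insert j S hj ih =>
      intro i hi n
      rw [Finset.sum_insert hj, add_comm (v j), indep M (fun i : I => i.1) top v v1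
        (fun h => hi (by simp [h])), ih i fun h => hi (Finset.mem_insert_of_mem h)]
  refine la s.hp hP (DistribMulAction.toModuleEnd K V) (DistribMulAction.toModuleEnd K U) M0 m1 f
    (fun i => M (v i) (n0 i) - M 0 (n0 i)) (fun i h => v2 i (by
      rw [← sub_eq_zero, rk, h, smul_zero])) (fun n h => R0 n fun x => (f1 ⟨_, x, rfl⟩ n).1 (h _))
    fun S => ?_
  obtain ⟨g, hg, e1⟩ := e.hs (∑ j ∈ S, v j)
  refine ⟨⟨g, hg⟩, fun n => Eq.trans ?_ (m2 g n)⟩
  rw [e1]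
  clear e1
  induction S using Finset.induction_on with
  | empty => simp [M0]
  | insert j S hj ih =>
    rw [Finset.sum_insert hj, Finset.sum_insert hj, add_comm (v j), ← rk, ← s1 S j hj, ← ih]
    abel

theorem abs [Finite G] [Group.IsSolvable G] [IsPretransitive G X] [Finite X] [Nonempty X] [Finite V]
    {k : ℕ} (hk : ¬p ∣ k) (ord : ∀ i, r ∣ p ^ i - 1 → k ∣ i) (sur : Function.Surjective s.τ)
    (RW : ∀ x, ∀ w ∈ s.W, ∀ v ∈ s.R x, w • v ∈ s.R x) (Ri : ∀ x, (s.R x).index = p ^ k)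
    (R0 : ∀ v, (∀ x, v ∈ s.R x) → v = 0) : False := by
  classical
  have : Finite C := Finite.of_surjective e.c fun v => let ⟨w, _, h⟩ := e.hs v; ⟨w, h⟩
  obtain ⟨B, ⟨hB, on⟩, mn⟩ := wellFounded_lt.has_min {B : AddSubgroup C |
    (∀ (g : G) v, v ∈ B → g • v ∈ B) ∧ ∀ v, ∃ g, e.c g ∈ B ∧ s.τ g = v}
    ⟨⊤, by simp, fun v => let ⟨g, h⟩ := sur v; ⟨g, trivial, h⟩⟩
  obtain ⟨D, ⟨hD, l⟩, mx⟩ := wellFounded_gt.has_min {D : AddSubgroup C |
    (∀ (g : G) v, v ∈ D → g • v ∈ D) ∧ D < B} ⟨⊥, by simp, bot_lt_iff_ne_bot.2 fun h => by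
      obtain ⟨x⟩ := ‹Nonempty X›
      have h1 : s.R x = ⊤ := eq_top_iff.2 fun v _ => by
        obtain ⟨g, g1, rfl⟩ := on v
        rw [s.τ0 g (AddSubgroup.mem_bot.1 (h ▸ g1))]
        exact zero_mem _
      have := Ri x
      rw [h1, AddSubgroup.index_top] at this
      exact (Nat.one_lt_pow (fun h => hk (by simp [h])) s.hp.one_lt).ne this⟩
  let _ := subAct B hB
  let _ := quoAct (G := G) (D.addSubgroupOf B) fun g v hv => hD g _ hv
  let π : C → B ⧸ D.addSubgroupOf B := fun t => if h : t ∈ B then (⟨t, h⟩ : B) else 0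
  have hπ : ∀ t (h : t ∈ B), π t = (⟨t, h⟩ : B) := fun t h => dif_pos h
  have : Nontrivial (B ⧸ D.addSubgroupOf B) := QuotientAddGroup.nontrivial_iff.2 fun h =>
    l.not_ge (AddSubgroup.addSubgroupOf_eq_top.1 h)
  have πa : ∀ t ∈ B, ∀ t' ∈ B, π (t + t') = π t + π t' := fun t h t' h' => by
    rw [hπ _ (add_mem h h'), hπ _ h, hπ _ h']; rfl
  have πs : ∀ (g : G), ∀ t ∈ B, π (g • t) = g • π t := fun g t h => by
    rw [hπ _ (hB g _ h), hπ _ h]; rfl
  have irr : ∀ Y : AddSubgroup (B ⧸ D.addSubgroupOf B), (∀ (g : G) u, u ∈ Y → g • u ∈ Y) →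
      Y = ⊥ ∨ Y = ⊤ := fun Y hY => by
    let Y' := (Y.comap (QuotientAddGroup.mk' _)).map B.subtype
    have l1 : D ≤ Y' := fun v hv => ⟨⟨v, l.le hv⟩, by
      show (QuotientAddGroup.mk _ : B ⧸ D.addSubgroupOf B) ∈ Y
      rw [(QuotientAddGroup.eq_zero_iff (⟨v, l.le hv⟩ : B)).2 hv]; exact zero_mem _, rfl⟩
    by_cases h : B ≤ Y'
    · refine Or.inr (eq_top_iff.2 ?_)
      rintro ⟨v⟩ -
      obtain ⟨w, hw, h1⟩ := h v.2
      exact (Subtype.ext h1 : w = v) ▸ hw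
    · refine Or.inl (eq_bot_iff.2 ?_)
      rintro ⟨v⟩ hv
      by_contra h1
      refine mx Y' ⟨?_, ⟨AddSubgroup.map_subtype_le _, h⟩⟩
        ⟨l1, fun k => h1 ((QuotientAddGroup.eq_zero_iff v).2 (k ⟨v, hv, rfl⟩))⟩
      rintro g _ ⟨w, hw, rfl⟩
      exact ⟨g • w, hY g _ hw, rfl⟩
  have no : ¬∀ v, ∃ g, e.c g ∈ B ∧ π (e.c g) = 0 ∧ s.τ g = v := fun h =>
    mn D ⟨hD, fun v => let ⟨g, g1, g2, g3⟩ := h v
      ⟨g, (QuotientAddGroup.eq_zero_iff (⟨_, g1⟩ : B)).1 (hπ _ g1 ▸ g2), g3⟩⟩ l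
  have hO := triv s hB π πs irr (by
    rintro ⟨v⟩
    show p ^ a • (v : B ⧸ D.addSubgroupOf B) = 0
    rw [← QuotientAddGroup.mk_nsmul, show p ^ a • v = 0 from Subtype.ext (s.hC v)]; rfl) on no
  obtain ⟨M, m1, m2, m3, m4⟩ := mapM s hB π πa πs (by
    rintro ⟨v⟩
    exact ⟨v, v.2, hπ _ _⟩) irr on no hO
  exact last s hk ord RW Ri R0 hO M m1 m2 m3 m4

end Pool.Agent.P.MP_6d14ae_al.Z
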