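import Pool.Agent.P.MP_6d14ae_al.Z.Tw
import Pool.Agent.P.MP_6d14ae_al.C.Ext

/-! A twisted family whose twist is read off a bottom layer over aligned points. -/

set_option autoImplicit false

namespace Pool.Agent.P.MP_6d14ae_al.Z

open Function U

theorem ali {F : Type} [Field F] [Fintype F] {p N r : ℕ} [Fact p.Prime] [NeZero N] (hN : p ∣ N)
    (Ψ : ZMod p → F →+* F) (Ψa : ∀ i j x, Ψ (i + j) x = Ψ j (Ψ i x)) (Ψ0 : ∀ x, Ψ 0 x = x)
    (ι : ZMod p →+* F) {g α : F} (hg : ∀ i, Ψ i g = g + ι i) (hι : ∀ i j, Ψ i (ι j) = ι j)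
    (hr : r.Prime) (m1 : α ^ r = 1) (m2 : α ≠ 1) : Cyc (p * (Fintype.card F * N)) r := by
  classical
  let π := ZMod.castHom hN (ZMod p)
  have g0 : ∀ i, g - ι i ≠ 0 := fun i h => by
    have := congrArg (Ψ 1) h
    rw [map_sub, hg, hι, map_zero, map_one, add_sub_right_comm, h, zero_add] at this
    exact one_ne_zero this
  have α0 : ∀ i, Ψ i α ≠ 0 := fun i => (map_ne_zero _).2 (by
    rintro rfl
    simp [hr.ne_zero] at m1)
  obtain ⟨A, hA⟩ : ∃ A : ZMod p → F → ZMod p → F → F, ∀ u x a z,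
    A u x a z = Ψ a (Ψ u α * (z + ι a * x / (g - ι a))) := ⟨_, fun _ _ _ _ => rfl⟩
  have inj : ∀ u x a z z', A u x a z = A u x a z' ↔ z = z' := fun u x a z z' => by
    rw [hA, hA, (Ψ a).injective.eq_iff, mul_right_inj' (α0 u), add_left_inj]
  have key : ∀ u v x y z a b, A (v + a) (A u x a y) b (A u x a z) =
      Ψ (a + b) (Ψ u α * Ψ v α * (z + (ι a * x + ι b * y) / (g - ι (a + b)))) :=
    fun u v x y z a b => by
      have h1 : g - ι b = Ψ a (g - ι (a + b)) := by rw [map_sub, hg, hι, map_add]; ring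
      rw [hA, hA, hA, Ψa a b, Ψa v a, h1, ← hι a b, ← map_mul, ← map_div₀, ← map_add, ← map_mul, hι]
      congr 2
      have h2 := g0 a
      have h3 := g0 (a + b)
      rw [map_add] at h3 ⊢
      field_simp
      ring
  obtain ⟨f, hf⟩ : ∃ f : ZMod p × F × ZMod N → ZMod p × F × ZMod N → ZMod p × F × ZMod N,
      ∀ s t, f s t = (t.1 + π s.2.2, A s.1 s.2.1 (π s.2.2) t.2.1,
        t.2.2 + if t.2.1 = s.2.1 then 1 else 0) := ⟨_, fun _ _ => rfl⟩
  have := cyc_of f ?_ ?_ (fun P h => ?_) hr (0, 0, 0) (0, 1, 0) ?_ ?_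
  · simpa only [Fintype.card_prod, ZMod.card] using this
  · rintro ⟨u, x, a⟩ ⟨v, y, b⟩ ⟨w, z, c⟩ e
    simp only [hf, Prod.mk.injEq, add_left_inj, inj] at e
    obtain ⟨rfl, rfl, e⟩ := e
    rw [add_right_cancel e]
  · rintro ⟨u, x, a⟩ ⟨v, y, b⟩ ⟨w, z, c⟩
    simp only [hf, Prod.mk.injEq, inj, key]
    refine ⟨?_, ?_, add_right_comm _ _ _⟩
    · simp only [map_add, eq_comm (a := x)]
      ring
    · by_cases k : x = y
      · subst k
        simp only [if_true, map_add π, map_add ι, map_one]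
        rw [add_left_comm (π a), mul_comm (Ψ u α)]
        congr 4 <;> ring
      · simp only [k, Ne.symm k, if_false, add_zero]
        rw [add_comm (π a), mul_comm (Ψ u α), add_comm (ι (π a) * x)]
  · have R1 : ∀ u z c c', P (u, z, c) ↔ P (u, z, c') := fun u z =>
      step (fun c => P (u, z, c)) isUnit_one fun c =>
        h (0, z, 0) (0, z + 1, 0) _ _ (by simp [hf, hA])
    have R0 : ∀ (s s' : ZMod p × F × ZMod N) u u' z z', u + π s.2.2 = u' + π s'.2.2 →
        A s.1 s.2.1 (π s.2.2) z = A s'.1 s'.2.1 (π s'.2.2) z' → (P (u, z, 0) ↔ P (u', z', 0)) :=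
      fun s s' u u' z z' a1 a2 => (R1 _ _ _ _).trans ((h s s' (u, z, -if z = s.2.1 then 1 else 0)
        (u', z', -if z' = s'.2.1 then 1 else 0) (by simp [hf, a1, a2])).trans (R1 _ _ _ _))
    have R2 : ∀ u z z', P (u, z, 0) ↔ P (u, z', 0) := fun u z z' =>
      R0 (0, (z' - z) * (g - ι 1), 1) (0, 0, 1) u u z z' rfl (by
        have := g0 1
        simp only [hA, map_one] at this ⊢
        congr 2
        field_simp
        ring)
    have R3 : ∀ u u', P (u, 0, 0) ↔ P (u', 0, 0) :=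
      step (fun u => P (u, 0, 0)) isUnit_one fun u =>
        R0 (0, 0, 1) (0, 0, 0) u (u + 1) 0 0 (by simp) (by simp [hA])
    rintro ⟨u, z, c⟩ ⟨u', z', c'⟩ hp
    exact (R1 _ _ _ _).1 ((R2 _ _ _).1 ((R3 _ _).1 ((R2 _ _ _).1 ((R1 _ _ _ _).1 hp))))
  · have α1 : α ≠ 0 := Ψ0 α ▸ α0 0
    have : ∀ k : ℕ, (f (0, 0, 0))^[k] (0, 1, 0) = (0, α ^ k, 0) := fun k => by
      induction k with
      | zero => simp
      | succ k ih => rw [iterate_succ_apply', ih, hf]; simp [hA, Ψ0, α1, pow_succ']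
    rw [this, m1]
  · rw [hf]
    simp [hA, Ψ0, m2]

theorem suf4 {n r p : ℕ} (hn : 0 < n) (hr : r.Prime) (hrn : ¬r ∣ n) (hp : p.Prime)
    (h1 : p ∣ orderOf (p : ZMod r)) (h2 : p ^ (orderOf (p : ZMod r) + 2) ∣ n) : Cyc n r := by
  classical
  have := Fact.mk hp
  have := Fact.mk hr
  have p0 : (p : ZMod r) ≠ 0 := fun e => hrn
    (((ZMod.natCast_eq_zero_iff p r).1 e).trans ((dvd_pow_self p (by omega)).trans h2))
  have e0 : 0 < orderOf (p : ZMod r) := isOfFinOrder_iff_pow_eq_one.2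
    ⟨r - 1, Nat.sub_pos_of_lt hr.one_lt, ZMod.pow_card_sub_one_eq_one p0⟩ |>.orderOf_pos
  have oi := ord_iff (r := r) hp.pos
  generalize orderOf (p : ZMod r) = e at *
  obtain ⟨m, rfl⟩ := h2
  have : NeZero (p * m) := ⟨mul_ne_zero hp.ne_zero (Nat.pos_of_mul_pos_left hn).ne'⟩
  let F := GaloisField p e
  let _ := Fintype.ofFinite F
  have hc : Fintype.card F = p ^ e := by
    rw [← Nat.card_eq_fintype_card, GaloisField.card p e e0.ne']
  obtain ⟨α, hα⟩ := exists_prime_orderOf_dvd_card (G := Fˣ) r (by rw [Fintype.card_units, hc, oi])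
  obtain ⟨φ, ρ, ρ0, hρ, hφ⟩ := C.fld e0 h1
  have h3 : φ ^ p = 1 := RingHom.ext fun x => by rw [RingHom.coe_pow]; exact hφ x
  have h4 : φ ρ⁻¹ = ρ⁻¹ + 1 := by
    have : φ ρ ≠ 0 := (map_ne_zero φ).2 ρ0
    rw [map_inv₀]
    field_simp
    linear_combination -hρ
  have h5 : ∀ k : ℕ, (φ ^ k) ρ⁻¹ = ρ⁻¹ + k := fun k => by
    induction k with
    | zero => simp
    | succ k ih =>
      rw [pow_succ', RingHom.mul_def, RingHom.comp_apply, ih, map_add, h4, map_natCast]
      push_cast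
      ring
  have := ali (N := p * m) (dvd_mul_right p m) (fun i : ZMod p => φ ^ i.val) (fun i j x => by
      rw [ZMod.val_add, ← pow_eq_pow_mod _ h3, add_comm, pow_add]
      rfl) (by simp) (algebraMap (ZMod p) F) (g := ρ⁻¹) (α := α)
    (fun i => by rw [h5, ← map_natCast (algebraMap (ZMod p) F), ZMod.natCast_zmod_val])
    (fun i j => by
      rw [← ZMod.natCast_zmod_val j, map_natCast, map_natCast]) hr
    (by rw [← hα, ← Units.val_pow_eq_pow_val, pow_orderOf_eq_one, Units.val_one])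
    (by simpa using fun h : α = 1 => hr.one_lt.ne' (by rw [← hα, h, orderOf_one]))
  rwa [hc, show p * (p ^ e * (p * m)) = p ^ (e + 2) * m by ring] at this

end Pool.Agent.P.MP_6d14ae_al.Z
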