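import Pool.Agent.P.MP_6d14ae_al.Z.Ks

/-! Fixed point counts for cocycles. -/

set_option autoImplicit false

namespace Pool.Agent.P.MP_6d14ae_al.Z

open MulAction T
open S hiding Dat Lay c_one c_div facN ext_b triK next chi chi_one

variable {G X C V : Type} [Group G] [AddCommGroup C] [DistribMulAction G C] [AddCommGroup V]
  [DistribMulAction G V]

/-- the action on an invariant subgroup -/
abbrev subAct (B : AddSubgroup C) (hB : ∀ (g : G) v, v ∈ B → g • v ∈ B) :
    DistribMulAction G B where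
  smul g v := ⟨g • v.1, hB g _ v.2⟩
  one_smul v := Subtype.ext (one_smul G v.1)
  mul_smul g h v := Subtype.ext (mul_smul g h v.1)
  smul_zero g := Subtype.ext (smul_zero g)
  smul_add g v w := Subtype.ext (smul_add g v.1 w.1)

/-- the action on the quotient by an invariant subgroup -/
abbrev quoAct (D : AddSubgroup C) (hD : ∀ (g : G) v, v ∈ D → g • v ∈ D) :
    DistribMulAction G (C ⧸ D) where
  smul g := QuotientAddGroup.map D D (DistribSMul.toAddMonoidHom C g) (hD g)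
  one_smul := by
    rintro ⟨v⟩
    exact congrArg QuotientAddGroup.mk (one_smul G v)
  mul_smul := by
    rintro u u' ⟨v⟩
    exact congrArg QuotientAddGroup.mk (mul_smul u u' v)
  smul_zero g := map_zero (QuotientAddGroup.map D D (DistribSMul.toAddMonoidHom C g) (hD g))
  smul_add g := map_add (QuotientAddGroup.map D D (DistribSMul.toAddMonoidHom C g) (hD g))

theorem f_one {f : G → C} (hf : ∀ g h, f (g * h) = f g + g • f h) : f 1 = 0 := by
  simpa using hf 1 1

theorem f_div {f : G → C} (hf : ∀ g h, f (g * h) = f g + g • f h) (g h : G) :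
    f (g⁻¹ * h) = g⁻¹ • (f h - f g) := by
  have := hf g (g⁻¹ * h)
  rw [mul_inv_cancel_left] at this
  rw [this, add_sub_cancel_left, inv_smul_smul]

/-- the preimage of an invariant subgroup under a cocycle -/
def cz {f : G → C} (hf : ∀ g h, f (g * h) = f g + g • f h) (B : AddSubgroup C)
    (hB : ∀ (g : G) v, v ∈ B → g • v ∈ B) : Subgroup G where
  carrier := {g | f g ∈ B}
  one_mem' := by simp [f_one hf]
  mul_mem' := fun {a b} ha hb => by simpa [hf] using B.add_mem ha (hB a _ hb)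
  inv_mem' := fun {a} ha => by
    have := f_div hf a 1
    rw [mul_one, f_one hf, zero_sub] at this
    simpa [this] using hB a⁻¹ _ ha

/-- the zero set of a cocycle -/
def c0 {f : G → C} (hf : ∀ g h, f (g * h) = f g + g • f h) : Subgroup G :=
  cz hf ⊥ fun g v hv => by simp_all

theorem acop {A : Type} [AddCommGroup A] (D : AddSubgroup A) {v : A} {a b : ℕ} (h : a.Coprime b)
    (ha : a • v ∈ D) (hb : b • v ∈ D) : v ∈ D :=
  cop (G := Multiplicative A) D.toSubgroup (g := Multiplicative.ofAdd v) h ha hb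

theorem pcard {A : Type} [AddCommGroup A] [Finite A] {p a : ℕ} (hp : p.Prime)
    (h : ∀ v : A, p ^ a • v = 0) : ∃ i, Nat.card A = p ^ i :=
  have := Fact.mk hp
  (IsPGroup.iff_card (G := Multiplicative A)).1 fun v => ⟨a, h v.toAdd⟩

theorem nf [Finite G] {p r : ℕ} (hp : p.Prime) (hr : r.Prime) (hrp : r ≠ p) {W : Subgroup G}
    (hW : IsPGroup r W) (hV : ∀ v : V, p • v = 0) (VW : ∀ v : V, (∀ w ∈ W, w • v = v) → v = 0)
    (D : AddSubgroup V) (v : V) (h : ∀ w ∈ W, w • v - v ∈ D) : v ∈ D := by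
  have := Fact.mk hr
  let _ := Fintype.ofFinite W
  obtain ⟨k, hk⟩ := IsPGroup.iff_card.1 hW
  have h1 : ∑ w : W, w.1 • v = 0 := VW _ fun u hu => by
    rw [Finset.smul_sum]
    exact Fintype.sum_equiv (Equiv.mulLeft ⟨u, hu⟩) _ _ fun w => (mul_smul _ _ _).symm
  have h2 := D.sum_mem (t := Finset.univ) fun (w : W) _ => h w w.2
  rw [Finset.sum_sub_distrib, h1, zero_sub, neg_mem_iff, Finset.sum_const, Finset.card_univ,
    ← Nat.card_eq_fintype_card, hk] at h2
  exact acop D (((Nat.coprime_primes hr hp).2 hrp).pow_left k) h2 (hV v ▸ D.zero_mem)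

theorem idx [Finite G] [Finite V] {p r : ℕ} (hp : p.Prime) (hr : r.Prime) (hrp : r ≠ p)
    {W : Subgroup G} (hW : IsPGroup r W) (hV : ∀ v : V, p • v = 0)
    (VW : ∀ v : V, (∀ w ∈ W, w • v = v) → v = 0) (D : AddSubgroup V)
    (hD : ∀ w ∈ W, ∀ v ∈ D, w • v ∈ D) : ∃ i, D.index = p ^ i ∧ r ∣ p ^ i - 1 := by
  have := Fact.mk hr
  obtain ⟨i, hi⟩ := pcard (A := V ⧸ D) (a := 1) hp (by
    rintro ⟨v⟩
    show p ^ 1 • (v : V ⧸ D) = 0
    rw [← QuotientAddGroup.mk_nsmul, pow_one, hV]; rfl)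
  let _ := quoAct (G := W) D fun w => hD w w.2
  have h := hW.card_modEq_card_fixedPoints (V ⧸ D)
  rw [show fixedPoints W (V ⧸ D) = {0} from Set.eq_singleton_iff_unique_mem.2
    ⟨fun w => smul_zero w, by
      rintro ⟨v⟩ hv
      refine (QuotientAddGroup.eq_zero_iff v).2 (nf hp hr hrp hW hV VW D v fun w hw => ?_)
      have := QuotientAddGroup.eq.1 (hv ⟨w, hw⟩).symm
      rwa [neg_add_eq_sub] at this⟩, hi, Nat.card_unique, ← pow_zero p] at h
  exact ⟨i, hi, ar hp hr hrp (Nat.zero_le i) h⟩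

variable [MulAction G X] (e : Dat G X C)

theorem gen {n : ℕ} (hn : 0 < n) (hC : ∀ v : C, n • v = 0) (Q : C → Prop) (h0 : Q 0)
    (h : ∀ a x, Q a → Q (a + e.b x)) (a : C) : Q a := by
  let S : AddSubmonoid C :=
    { carrier := {v | ∀ a, Q a → Q (a + v)}
      zero_mem' := fun a ha => by rwa [add_zero]
      add_mem' := fun {u v} hu hv a ha => add_assoc a u v ▸ hv _ (hu a ha) }
  have : ∀ v ∈ AddSubgroup.closure (Set.range e.b), v ∈ S := fun v hv => by
    induction hv using AddSubgroup.closure_induction with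
    | mem _ h' =>
      obtain ⟨x, rfl⟩ := h'
      exact fun a => h a x
    | zero => exact S.zero_mem
    | add _ _ _ _ h1 h2 => exact S.add_mem h1 h2
    | neg v _ h1 =>
      obtain ⟨m, rfl⟩ := Nat.exists_eq_succ_of_ne_zero hn.ne'
      rw [neg_eq_of_add_eq_zero_left ((succ_nsmul v m).symm.trans (hC v))]
      exact S.nsmul_mem h1 m
  simpa using this a (e.hg ▸ trivial) 0 h0

theorem fixz [Finite G] {p a q : ℕ} (hp : p.Prime) (hC : ∀ v : C, p ^ a • v = 0) (hq : q.Prime)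
    (hqp : q ≠ p) (Z Q : Subgroup G) (hQ : IsPGroup q Q) (hZ : ∀ h, e.c h = 0 → h ∈ Z) (g : G)
    (h1 : ∀ h ∈ Q, e.c h = 0) (h2 : ∀ h ∈ Q, g⁻¹ * h * g ∈ Z) :
    ∃ z ∈ Z, ∀ h ∈ Q, h • e.c (g * z) = e.c (g * z) := by
  have := Fact.mk hq
  have : Finite C := Finite.of_surjective e.c fun v => let ⟨w, _, h⟩ := e.hs v; ⟨w, h⟩
  obtain ⟨i, hi⟩ := pcard hp hC
  have key : ∀ a b : G, a⁻¹ * b ∈ c0 e.hc ↔ e.c a = e.c b := fun a b => by
    show e.c _ ∈ (⊥ : AddSubgroup C) ↔ _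
    rw [AddSubgroup.mem_bot, c_div, smul_eq_zero_iff_eq, sub_eq_zero, eq_comm]
  have hH : (c0 e.hc).index = p ^ i := hi ▸ Nat.card_congr (Equiv.ofBijective
    (Quotient.lift e.c fun a b h => (key a b).1 (QuotientGroup.leftRel_apply.1 h))
    ⟨by
      rintro ⟨a⟩ ⟨b⟩ h
      exact QuotientGroup.eq.2 ((key a b).2 h),
    fun v => let ⟨w, _, h⟩ := e.hs v; ⟨w, h⟩⟩)
  let f : Q →* Z := (((MulAut.conj g⁻¹).toMonoidHom).comp Q.subtype).codRestrict Z
    fun h => by simpa using h2 h h.2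
  let _ : MulAction Q (Z ⧸ (c0 e.hc).subgroupOf Z) := MulAction.compHom _ f
  obtain ⟨⟨z⟩, hz⟩ := hQ.nonempty_fixed_point_of_prime_not_dvd_card (Z ⧸ (c0 e.hc).subgroupOf Z)
    fun h => hqp ((Nat.prime_dvd_prime_iff_eq hq hp).1 (hq.dvd_of_dvd_pow
      (hH ▸ h.trans (Subgroup.relIndex_dvd_index_of_le (H := c0 e.hc) hZ))))
  refine ⟨z, z.2, fun h hh => ?_⟩
  have h3 : (g⁻¹ * h * g⁻¹⁻¹ * z)⁻¹ * z ∈ c0 e.hc :=
    (QuotientGroup.eq (s := (c0 e.hc).subgroupOf Z)).1 (hz ⟨h, hh⟩)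
  have h4 := (key (h * (g * z)) (g * z)).1 (by convert h3 using 1; group)
  rwa [e.hc, h1 h hh, zero_add] at h4

end Pool.Agent.P.MP_6d14ae_al.Z
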