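import Pool.Agent.P.MP_6d14ae_al.Z.Tw

/-! A twisted family whose channels are moved by a Hermitian form. -/

set_option autoImplicit false

namespace Pool.Agent.P.MP_6d14ae_al.Z

open Function U

theorem her {F : Type} [Field F] [Fintype F] {p N r : ℕ} [Fact p.Prime] [NeZero N]
    (d2 : (1 + 1 : ZMod p) ≠ 0) (φ : F →+* F) {ρ : F} (ρ0 : ρ ≠ 0) (hρ : φ ρ * (1 + ρ) = ρ)
    (μ : ZMod N → F) (hμ : ∀ u, μ (u + 1) = φ (μ u)) (hr : r.Prime) (μ0 : ∀ u, μ u ≠ 0)
    (m1 : μ 0 ^ r = 1) (m2 : μ 0 ≠ 1) (Q : F → ZMod p) (Q0 : Q 0 = 0)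
    (Q1 : ∀ u z, Q (μ u * z) = Q z) (Q2 : ∀ s z, Q s + Q (φ (z + ρ * s)) = Q z + Q (φ (s + ρ * z)))
    {t : F} (Q3 : Q t ≠ 0) : Cyc (p * (N * Fintype.card F)) r := by
  classical
  obtain ⟨g, hg⟩ : ∃ g : ZMod p × ZMod N × F → ZMod p × ZMod N × F → ZMod p × ZMod N × F,
      ∀ s t, g s t = (t.1 + Q s.2.2, t.2.1 + if s.1 = t.1 + 1 then 1 else 0,
        if t.1 = s.1 then φ (t.2.2 + ρ * s.2.2) else
          if t.1 = s.1 + 1 then μ s.2.1 * t.2.2 else t.2.2) := ⟨_, fun _ _ => rfl⟩
  have e1 : ∀ a : ZMod p, ¬a = a + 1 := fun a h => one_ne_zero (α := ZMod p) (by simpa using h)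
  have e2 : ∀ a : ZMod p, ¬a = a + 1 + 1 := fun a h => d2 (by simpa [add_assoc] using h)
  have e3 : ∀ a : ZMod p, ¬a + 1 = a := fun a h => e1 a h.symm
  have e4 : ∀ a b c : ZMod p, a + c = b + c + 1 ↔ a = b + 1 := fun a b c => by
    rw [add_right_comm, add_left_inj]
  have := cyc_of g ?_ ?_ (fun P h => ?_) hr (0, 0, 0) (0 + 1, 0, 1) ?_ ?_
  · simpa only [Fintype.card_prod, ZMod.card] using this
  · rintro ⟨a, u, x⟩ ⟨b, v, y⟩ ⟨c, w, z⟩ e
    simp only [hg, Prod.mk.injEq] at e
    obtain ⟨e, e', e''⟩ := e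
    obtain rfl := add_right_cancel e
    obtain rfl := add_right_cancel e'
    split_ifs at e''
    · rw [add_right_cancel (φ.injective e'')]
    · rw [mul_left_cancel₀ (μ0 u) e'']
    · rw [e'']
  · rintro ⟨a, u, x⟩ ⟨b, v, y⟩ ⟨c, w, z⟩
    simp only [hg, Prod.mk.injEq, e4, add_left_inj]
    refine ⟨?_, add_right_comm _ _ _, ?_⟩
    · rw [add_assoc, add_assoc, add_right_inj]
      by_cases k : a = b
      · subst k
        simp only [if_true, Q2]
      · rw [if_neg k, if_neg (Ne.symm k)]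
        split_ifs <;> simp only [Q1, add_comm]
    by_cases k1 : c = a
    · subst k1
      by_cases k2 : c = b
      · subst k2
        simp only [if_true]
        congr 1
        simp only [map_add, map_mul]
        linear_combination (φ x - φ y) * hρ
      · by_cases k3 : c = b + 1
        · subst k3
          simp only [if_true, e3, if_false, hμ, map_add, map_mul]
          ring
        · simp only [if_true, k2, k3, if_false]
    · by_cases k2 : c = b
      · subst k2
        by_cases k3 : c = a + 1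
        · subst k3
          simp only [if_true, e3, if_false, hμ, map_add, map_mul]
          ring
        · simp only [if_true, k1, k3, if_false]
      · by_cases k3 : c = a + 1
        · subst k3
          by_cases k4 : a = b
          · subst k4
            simp only [if_true, e1, e3, if_false, add_zero]
            ring
          · simp only [if_true, k1, k2, add_left_inj, k4, Ne.symm k2, if_false, add_zero]
        · by_cases k4 : c = b + 1
          · subst k4
            simp only [if_true, k1, k2, k3, Ne.symm k1, if_false, add_zero]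
          · simp only [k1, k2, k3, k4, if_false]
  · have R0 : ∀ v z b b', P (b, v, z) ↔ P (b', v, z) := fun v z =>
      step (fun b => P (b, v, z)) (Ne.isUnit Q3) fun b =>
        h (b + 1, 0, t) (b + Q t + 1, 0, 0) _ _ (by simp only [hg, Q0, e1, e2, if_true, if_false, add_zero])
    have R1 : ∀ b v z z', P (b, v, z) ↔ P (b, v, z') := fun b v z z' =>
      (h (b, 0, (z' - z) / ρ) (b + Q ((z' - z) / ρ), 0, 0) _ (b + Q ((z' - z) / ρ), v, z') (by
        simp only [hg, Q0, e1, if_true, if_false, add_zero, mul_zero, mul_div_cancel₀ _ ρ0,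
          add_sub_cancel])).trans (R0 _ _ _ _)
    have R2 : ∀ b v v', P (b, v, 0) ↔ P (b, v', 0) := fun b =>
      step (fun v => P (b, v, 0)) isUnit_one fun v =>
        h (b + 1, 0, 0) (b, 0, 0) _ _ (by simp [hg, e1, e2])
    rintro ⟨y, v, z⟩ ⟨y', v', z'⟩ hp
    exact (R1 _ _ _ _).1 ((R2 _ _ _).1 ((R1 _ _ _ _).1 ((R0 _ _ _ _).1 hp)))
  · have : ∀ k : ℕ, (g (0, 0, 0))^[k] (0 + 1, 0, 1) = (0 + 1, 0, μ 0 ^ k) := fun k => by
      induction k with
      | zero => simp
      | succ k ih =>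
        rw [iterate_succ_apply', ih, hg]
        simp only [Q0, e2, e3, if_true, if_false, add_zero, pow_succ']
    rw [this, m1]
  · rw [hg]
    simp only [e3, if_true, if_false, mul_one]
    exact fun h => m2 (congrArg (fun x => x.2.2) h)

theorem idn {F : Type} [Field F] {g : F} (g0 : g ≠ 0) (g2 : g - 1 ≠ 0) (s t z w : F) :
    (g + 1) / g * (s * t) + g / (g - 1) * ((z + g⁻¹ * s) * (w + g⁻¹ * t)) =
      (g + 1) / g * (z * w) + g / (g - 1) * ((s + g⁻¹ * z) * (t + g⁻¹ * w)) := by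
  field_simp
  ring

theorem suf3 {n r p : ℕ} (hn : 0 < n) (hr : r.Prime) (hrn : ¬r ∣ n) (hp : p.Prime) (p2 : p ≠ 2)
    (h1 : 2 * p ∣ orderOf (p : ZMod r)) (h2 : p ^ (orderOf (p : ZMod r) + 2) ∣ n) : Cyc n r := by
  classical
  have := Fact.mk hp
  have := Fact.mk hr
  have p0 : (p : ZMod r) ≠ 0 := fun e => hrn
    (((ZMod.natCast_eq_zero_iff p r).1 e).trans ((dvd_pow_self p (by omega)).trans h2))
  have e0 : 0 < orderOf (p : ZMod r) := isOfFinOrder_iff_pow_eq_one.2
    ⟨r - 1, Nat.sub_pos_of_lt hr.one_lt, ZMod.pow_card_sub_one_eq_one p0⟩ |>.orderOf_pos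
  have oi := ord_iff (r := r) hp.pos
  generalize orderOf (p : ZMod r) = e at *
  obtain ⟨m, rfl⟩ := h2
  obtain ⟨f, hf⟩ := h1
  have f0 : 0 < f := Nat.pos_of_mul_pos_left (hf ▸ e0)
  have m0 := Nat.pos_of_mul_pos_left hn
  have : Fact (1 < p * m) := ⟨hp.one_lt.trans_le (Nat.le_mul_of_pos_right p m0)⟩
  let F := GaloisField p e
  let _ := Fintype.ofFinite F
  have hc : Fintype.card F = p ^ e := by
    rw [← Nat.card_eq_fintype_card, GaloisField.card p e e0.ne']
  obtain ⟨α, hα⟩ := exists_prime_orderOf_dvd_card (G := Fˣ) r (by rw [Fintype.card_units, hc, oi])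
  let ψ := iterateFrobenius F p f
  have hk : ∀ k x, (ψ ^ k) x = x ^ p ^ (f * k) := fun k => by
    induction k with
    | zero => simp
    | succ k ih =>
      intro x
      rw [pow_succ', RingHom.mul_def, RingHom.comp_apply, ih, iterateFrobenius_def, ← pow_mul,
        ← pow_add, mul_add_one]
  have hψ : ψ ^ (2 * p) = 1 := RingHom.ext fun x => by
    rw [hk, mul_comm, ← hf, ← hc]
    exact FiniteField.pow_card x
  have hμ : ∀ k, 0 < k → k < 2 * p → (ψ ^ k) α ≠ α := fun k k0 k1 h => by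
    have h3 : α ^ p ^ (f * k) = α ^ 1 := Units.ext (by
      rw [Units.val_pow_eq_pow_val, pow_one, ← hk]
      exact h)
    rw [pow_eq_pow_iff_modEq, hα] at h3
    have h4 := Nat.le_of_dvd (Nat.mul_pos f0 k0)
      ((oi _).1 ((Nat.modEq_iff_dvd' (Nat.one_le_pow _ _ hp.pos)).1 h3.symm))
    nlinarith
  have p3 := hp.two_le
  let φ := ψ ^ 2
  let β := ψ ^ p
  have hφ : φ ^ p = 1 := by rw [← pow_mul, hψ]
  have bb : ∀ x, β (β x) = x := fun x => by
    show (β * β) x = x
    rw [← pow_add, ← two_mul, hψ]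
    rfl
  have cm : ∀ x, φ (β x) = β (φ x) := fun x => by
    show (φ * β) x = (β * φ) x
    rw [← pow_add, ← pow_add, add_comm]
  have d2 : (1 + 1 : ZMod p) ≠ 0 := fun e => p2 ((Nat.prime_dvd_prime_iff_eq hp Nat.prime_two).1
    ((ZMod.natCast_eq_zero_iff 2 p).1 (by linear_combination e)))
  have t2 : (2 : F) ≠ 0 := fun e => p2 ((Nat.prime_dvd_prime_iff_eq hp Nat.prime_two).1
    ((CharP.cast_eq_zero_iff F p 2).1 e))
  obtain ⟨g', hg'⟩ := h90 φ hφ (hμ 2 two_pos (by omega))
  obtain ⟨g, hg, gb⟩ : ∃ g : F, φ g = g + 1 ∧ β g = g := ⟨(g' + β g') / 2, by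
    rw [map_div₀, map_add, cm, hg', map_add, map_one, map_ofNat, div_add_one t2]
    congr 1
    ring, by rw [map_div₀, map_add, bb, map_ofNat, add_comm]⟩
  have g0 : g ≠ 0 := by
    rintro rfl
    simp at hg
  have g1 : g + 1 ≠ 0 := hg ▸ (map_ne_zero φ).2 g0
  have g2 : g - 1 ≠ 0 := fun h => g0 (by simpa [hg] using congrArg φ h)
  let T := Algebra.trace (ZMod p) F
  have tr : ∀ (χ : F →+* F) x, T (χ x) = T x := fun χ x =>
    Algebra.trace_eq_of_algEquiv (AlgEquiv.ofBijective ⟨χ, fun r => RingHom.congr_fun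
      (Subsingleton.elim (χ.comp (algebraMap (ZMod p) F)) (algebraMap (ZMod p) F)) r⟩
      (Finite.injective_iff_bijective.1 χ.injective)) x
  have a1 : (α : F) ^ r = 1 := by
    rw [← hα, ← Units.val_pow_eq_pow_val, pow_orderOf_eq_one, Units.val_one]
  have nb : (α : F) * β α = 1 := by
    by_contra h
    have h3 : orderOf (α * β α : F) = r := orderOf_eq_prime (by
      rw [mul_pow, ← map_pow, a1, map_one, one_mul]) h
    have h4 : (α * β α : F) ^ (p ^ (f * p) - 1) = 1 := by
      have h5 : (α * β α : F) ≠ 0 := mul_ne_zero α.ne_zero ((map_ne_zero β).2 α.ne_zero)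
      refine mul_right_cancel₀ h5 ?_
      rw [← pow_succ, Nat.sub_add_cancel (Nat.one_le_pow _ _ hp.pos), ← hk, map_mul, bb, one_mul,
        mul_comm]
    have := Nat.le_of_dvd (Nat.mul_pos f0 hp.pos) ((oi _).1 (h3 ▸ orderOf_dvd_of_pow_eq_one h4))
    nlinarith
  obtain ⟨t, ht⟩ : ∃ t, T ((g + 1) / g * (t * β t)) ≠ 0 := by
    by_contra! h
    obtain ⟨s, hs⟩ : ∃ s, T ((g + 1) / g * s) ≠ 0 := by
      by_contra! k
      exact div_ne_zero g1 g0 ((traceForm_nondegenerate (ZMod p) F).1 _ k)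
    have h3 := h (s + 1)
    rw [show (g + 1) / g * ((s + 1) * β (s + 1)) = (g + 1) / g * (s * β s) +
      (g + 1) / g * (1 * β 1) + ((g + 1) / g * s + β ((g + 1) / g * s)) by
        simp only [map_add, map_mul, map_one, map_div₀, gb]; ring,
      map_add, map_add, h, h, map_add, tr] at h3
    exact mul_ne_zero d2 hs (by linear_combination h3)
  have := her (N := p * m) d2 φ (inv_ne_zero g0) (by
      rw [map_inv₀, hg, inv_mul_eq_iff_eq_mul₀ g1, add_mul, mul_inv_cancel₀ g0, one_mul])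
    (fun a => (φ ^ a.val) α) (fun a => by
      rw [ZMod.val_add, ← pow_eq_pow_mod _ (by rw [pow_mul, hφ, one_pow]), ZMod.val_one, pow_succ']
      rfl) hr (fun a => (map_ne_zero _).2 α.ne_zero) (by simpa using a1)
    (by simpa using fun h : α = 1 => hr.one_lt.ne' (by rw [← hα, h, orderOf_one]))
    (fun s => T ((g + 1) / g * (s * β s))) (by simp) (fun u z => ?_) (fun s z => ?_) ht
  · rwa [hc, show p * (p * m * p ^ e) = p ^ (e + 2) * m by ring] at this
  · have h3 : β ((φ ^ u.val) α) = (φ ^ u.val) (β α) := by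
      show (β * φ ^ u.val) α = (φ ^ u.val * β) α
      rw [← pow_mul, ← pow_add, ← pow_add, add_comm]
    rw [map_mul β, mul_mul_mul_comm, h3, ← map_mul (φ ^ u.val), nb, map_one, one_mul]
  · have h3 : ∀ y, (g + 1) / g * (φ y * β (φ y)) = φ (g / (g - 1) * (y * β y)) := fun y => by
      rw [map_mul, map_mul, cm, map_div₀, map_sub, hg, map_one, add_sub_cancel_right]
    rw [h3, h3, tr, tr, ← map_add, ← map_add]
    congr 1
    simp only [map_add, map_mul, map_inv₀, gb]
    exact idn g0 g2 _ _ _ _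

end Pool.Agent.P.MP_6d14ae_al.Z
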