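import Pool.Agent.P.MP_6d14ae_al.Z.La

/-! A field of scalars that commutes with a group of prime power order. -/

set_option autoImplicit false

namespace Pool.Agent.P.MP_6d14ae_al.Z

theorem ks1 {R P X : Type} [CommRing R] [Finite R] [Group P] [Finite X] {p e : ℕ} [Fact p.Prime]
    (hP : IsPGroup p P) (he : ¬p ∣ e) (h0 : (p : R) = 0) (θ : P → R →+* R)
    (h1 : ∀ x, θ 1 x = x) (h2 : ∀ g h x, θ (g * h) x = θ g (θ h x)) (m : X → Ideal R)
    (hm : ∀ x, (m x).IsMaximal) (hc : ∀ x, Nat.card (R ⧸ m x) = p ^ e) (hi : ⨅ x, m x = ⊥) :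
    ∃ ι : GaloisField p e →+* R, ∀ g k, θ g (ι k) = ι k := by
  classical
  have e0 : e ≠ 0 := fun h => he (h ▸ dvd_zero p)
  let K := GaloisField p e
  let I := Set.range m
  let _ := Fintype.ofFinite I
  have hI : ∀ i : I, i.1.IsMaximal := fun ⟨_, x, h⟩ => h ▸ hm x
  let E : R ≃+* ∀ i : I, R ⧸ i.1 := (RingEquiv.quotientBot R).symm.trans
    ((Ideal.quotEquivOfEq (hi.symm.trans (iInf_range' (fun i => i) m).symm)).trans
      (Ideal.quotientInfRingEquivPiQuotient (fun i : I => i.1) fun i j h =>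
        have := hI i
        have := hI j
        Ideal.isCoprime_of_isMaximal fun k => h (Subtype.ext k)))
  have c1 : ∀ i : I, Nat.card (K →+* R ⧸ i.1) = e := fun i => by
    have := hI i
    let _ := Ideal.Quotient.field i.1
    have : CharP (R ⧸ i.1) p := (CharP.charP_iff_prime_eq_zero Fact.out).2
      (by rw [← map_natCast (Ideal.Quotient.mk i.1), h0, map_zero])
    let _ := ZMod.algebra (R ⧸ i.1) p
    have c : Nat.card (R ⧸ i.1) = p ^ e := by
      obtain ⟨_, x, rfl⟩ := i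
      exact hc x
    have : Finite (R ⧸ i.1) := Finite.of_surjective _ Ideal.Quotient.mk_surjective
    have f : Module.finrank (ZMod p) (R ⧸ i.1) = e := by
      rw [Module.natCard_eq_pow_finrank (K := ZMod p), Nat.card_zmod] at c
      exact Nat.pow_right_injective (Fact.out : p.Prime).two_le c
    refine Eq.trans ?_ ((FiniteField.natCard_algHom_of_finrank_dvd (F := ZMod p)
      (K := K) (L := R ⧸ i.1) (by rw [f, GaloisField.finrank p e0])).trans
        (GaloisField.finrank p e0))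
    exact Nat.card_congr
      { toFun := fun f => ⟨f, fun r => RingHom.congr_fun (Subsingleton.elim
          (f.comp (algebraMap (ZMod p) K)) (algebraMap (ZMod p) _)) r⟩
        invFun := fun f => f
        left_inv := fun _ => rfl
        right_inv := fun _ => rfl }
  have c2 : Nat.card (K →+* R) = e ^ Fintype.card I := by
    rw [Nat.card_congr (β := ∀ i : I, K →+* R ⧸ i.1)
      { toFun := fun f i => (Pi.evalRingHom _ i).comp (E.toRingHom.comp f)
        invFun := fun f => E.symm.toRingHom.comp (RingHom.pi f)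
        left_inv := fun f => RingHom.ext fun k => E.symm_apply_apply (f k)
        right_inv := fun f => funext fun i => RingHom.ext fun k =>
          congrFun (E.apply_symm_apply fun i => f i k) i }, Nat.card_pi]
    simp [c1]
  let _ : MulAction P (K →+* R) :=
    { smul := fun g f => (θ g).comp f
      one_smul := fun f => RingHom.ext fun k => h1 _
      mul_smul := fun g h f => RingHom.ext fun k => h2 _ _ _ }
  obtain ⟨ι, hι⟩ := hP.nonempty_fixed_point_of_prime_not_dvd_card (K →+* R)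
    (c2 ▸ fun h => he ((Fact.out : p.Prime).dvd_of_dvd_pow h))
  exact ⟨ι, fun g k => RingHom.congr_fun (hι g) k⟩

theorem ks2 {G V U X : Type} [Group G] [AddCommGroup V] [Finite V] [AddCommGroup U] [Finite U]
    [Finite X] {p e : ℕ} [Fact p.Prime] (he : ¬p ∣ e)
    (φ : G →* AddMonoid.End V × AddMonoid.End U) (W P : Subgroup G) (hP : IsPGroup p P)
    (h0 : ∀ v : V, p • v = 0) (h1 : ∀ w ∈ W, ∀ w' ∈ W, φ w * φ w' = φ w' * φ w)
    (h2 : ∀ g, ∀ w ∈ W, ∃ w' ∈ W, φ (g * w * g⁻¹) = φ w') (M : V →+ U)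
    (hM : Function.Surjective M) (h3 : ∀ w ∈ W, ∀ v, M ((φ w).1 v) = (φ w).2 (M v))
    (R : X → AddSubgroup V) (h4 : ∀ x, ∀ w ∈ W, ∀ v ∈ R x, (φ w).1 v ∈ R x)
    (h5 : ∀ x D, R x < D → (∀ w ∈ W, ∀ v ∈ D, (φ w).1 v ∈ D) → D = ⊤)
    (h6 : ∀ x, (R x).index = p ^ e) (h7 : ∀ v, (∀ x, v ∈ R x) → v = 0) :
    ∃ ι : GaloisField p e →+* AddMonoid.End V × AddMonoid.End U,
      (∀ k, ∀ g ∈ P, φ g * ι k = ι k * φ g) ∧ (∀ k v, M ((ι k).1 v) = (ι k).2 (M v)) ∧
      ∀ k x, ∀ v ∈ R x, (ι k).1 v ∈ R x := by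
  let S := Subring.closure (φ '' W)
  have cm := Subring.isMulCommutative_closure (s := φ '' W) (by
    rintro _ ⟨w, hw, rfl⟩ _ ⟨w', hw', rfl⟩
    exact h1 w hw w' hw')
  let _ : CommRing S := { (inferInstance : Ring S) with mul_comm := cm.is_comm.comm }
  have a1 : ∀ ρ ∈ S, (∀ v, M (ρ.1 v) = ρ.2 (M v)) ∧ ∀ x, ∀ v ∈ R x, ρ.1 v ∈ R x := fun ρ hρ => by
    induction hρ using Subring.closure_induction with
    | mem _ h =>
      obtain ⟨w, hw, rfl⟩ := h
      exact ⟨h3 w hw, fun x => h4 x w hw⟩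
    | zero => exact ⟨fun v => map_zero M, fun x v _ => zero_mem _⟩
    | one => exact ⟨fun v => rfl, fun x v h => h⟩
    | add a b _ _ ha hb =>
      exact ⟨fun v => (map_add M _ _).trans (congrArg₂ _ (ha.1 v) (hb.1 v)),
        fun x v h => add_mem (ha.2 x v h) (hb.2 x v h)⟩
    | neg a _ ha =>
      exact ⟨fun v => (map_neg M _).trans (congrArg _ (ha.1 v)), fun x v h => neg_mem (ha.2 x v h)⟩
    | mul a b _ _ ha hb =>
      exact ⟨fun v => (ha.1 _).trans (congrArg _ (hb.1 v)), fun x v h => ha.2 x _ (hb.2 x v h)⟩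
  have a2 : ∀ ρ : S, (∀ v, ρ.1.1 v = 0) → ρ = 0 := fun ρ h =>
    Subtype.ext (Prod.ext (AddMonoidHom.ext h) (AddMonoidHom.ext fun u => by
      obtain ⟨v, rfl⟩ := hM u
      exact ((a1 ρ ρ.2).1 v).symm.trans (by rw [h, map_zero]; rfl)))
  have : Finite (AddMonoid.End V) := DFunLike.finite (V →+ V)
  have : Finite (AddMonoid.End U) := DFunLike.finite (U →+ U)
  let _ : Module S V := Module.compHom V ((RingHom.fst _ _).comp S.subtype)
  have e0 : e ≠ 0 := fun h => he (h ▸ dvd_zero p)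
  have a3 : ∀ x, ∃ m : Ideal S, m.IsMaximal ∧ Nat.card (S ⧸ m) = p ^ e ∧
      ∀ ρ ∈ m, ∀ v, ρ.1.1 v ∈ R x := fun x => by
    let D : Submodule S V := { R x with smul_mem' := fun ρ v h => (a1 ρ ρ.2).2 x v h }
    obtain ⟨m, hm, ⟨f⟩⟩ := isSimpleModule_iff_quot_maximal.1 (isSimpleModule_iff_isCoatom.2
      (show IsCoatom D from ⟨fun h => by
        have h8 : R x = ⊤ := congrArg Submodule.toAddSubgroup h
        have := h6 x
        rw [h8, AddSubgroup.index_top] at this
        exact (Nat.one_lt_pow e0 (Fact.out : p.Prime).one_lt).ne this,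
      fun D' h => Submodule.toAddSubgroup_injective (h5 x D'.toAddSubgroup h fun w hw v hv =>
        D'.smul_mem ⟨φ w, Subring.subset_closure ⟨w, hw, rfl⟩⟩ hv)⟩))
    refine ⟨m, hm, (Nat.card_congr f.toEquiv).symm.trans (h6 x), fun ρ hρ v => ?_⟩
    refine (Submodule.Quotient.mk_eq_zero D).1 (f.injective ?_)
    show f (ρ • Submodule.Quotient.mk v) = _
    rw [map_smul, map_zero]
    obtain ⟨y, hy⟩ := Ideal.Quotient.mk_surjective (f (Submodule.Quotient.mk v))
    rw [← hy]
    exact Ideal.Quotient.eq_zero_iff_mem.2 (m.mul_mem_right y hρ)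
  choose m m1 m2 m3 using a3
  have inv : ∀ g, φ g⁻¹ * φ g = 1 := fun g => by rw [← map_mul, inv_mul_cancel, map_one]
  have a4 : ∀ g, ∀ ρ ∈ S, φ g * ρ * φ g⁻¹ ∈ S := fun g ρ hρ => by
    induction hρ using Subring.closure_induction with
    | mem _ h =>
      obtain ⟨w, hw, rfl⟩ := h
      obtain ⟨w', hw', e⟩ := h2 g w hw
      rw [← map_mul, ← map_mul, e]
      exact Subring.subset_closure ⟨w', hw', rfl⟩
    | zero => simp
    | one => simp [← map_mul]
    | add a b _ _ ha hb => simpa [mul_add, add_mul] using add_mem ha hb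
    | neg a _ ha => simpa using neg_mem ha
    | mul a b _ _ ha hb =>
      have := mul_mem ha hb
      rwa [mul_assoc, ← mul_assoc (φ g⁻¹), ← mul_assoc (φ g⁻¹), inv, one_mul, ← mul_assoc,
        mul_assoc (φ g)] at this
  obtain ⟨ι, hι⟩ := ks1 (R := S) hP he (a2 _ fun v => by simpa using h0 v)
    (fun g => { toFun := fun ρ => ⟨_, a4 g ρ ρ.2⟩
                map_one' := Subtype.ext (by simp [← map_mul])
                map_mul' := fun a b => Subtype.ext (by
                  show φ g * (a * b) * φ g.1⁻¹ = φ g * a * φ g.1⁻¹ * (φ g * b * φ g.1⁻¹)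
                  simp only [mul_assoc]
                  rw [← mul_assoc (φ g.1⁻¹), inv, one_mul])
                map_zero' := Subtype.ext (by simp)
                map_add' := fun a b => Subtype.ext (by simp [mul_add, add_mul]) })
    (fun ρ => Subtype.ext (by simp)) (fun g h ρ => Subtype.ext (by simp [mul_assoc])) m m1 m2
    (eq_bot_iff.2 fun ρ hρ => a2 ρ fun v => h7 _ fun x => m3 x ρ (Ideal.mem_iInf.1 hρ x) v)
  refine ⟨S.subtype.comp ι, fun k g hg => ?_, fun k => (a1 _ (ι k).2).1, fun k => (a1 _ (ι k).2).2⟩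
  have : φ g * ι k * φ g⁻¹ = ι k := congrArg Subtype.val (hι ⟨g, hg⟩ k)
  show φ g * ι k = ι k * φ g
  conv_rhs => rw [← this, mul_assoc, inv, mul_one]

end Pool.Agent.P.MP_6d14ae_al.Z
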