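import Pool.Agent.P.MP_6d14ae_al.T.Geo

/-! A determinant argument for an orbit of surjections that differ by maps of rank one. -/

set_option autoImplicit false

namespace Pool.Agent.P.MP_6d14ae_al.Z

open Matrix Module

theorem aff {K n : Type} [Field K] [Fintype n] [DecidableEq n] (A : Matrix n n K) (u v : n → K) :
    ∃ α β : K, ∀ s : K, det (A + s • vecMulVec u v) = α + s * β := by
  let B : Matrix (n ⊕ Unit) (n ⊕ Unit) K := fromBlocks A (replicateCol Unit u) 0 1
  refine ⟨det (B.updateRow (Sum.inr ()) (Sum.elim 0 1)),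
    det (B.updateRow (Sum.inr ()) (Sum.elim (-v) 0)), fun s => ?_⟩
  rw [← det_updateRow_smul, ← det_updateRow_add]
  have : A + s • vecMulVec u v = A - replicateCol Unit u * replicateRow Unit (-(s • v)) := by
    ext i j
    simp [vecMulVec_apply, mul_apply]
    ring
  rw [this, ← det_fromBlocks_one₂₂]
  congr 1
  ext (i | i) (j | j) <;> simp [B, updateRow_apply]

theorem func {F E P : Type} [Field F] [AddCommGroup E] [Module F E] [Finite E] [Group P]
    [DistribMulAction P E] [SMulCommClass P F E] {p : ℕ} (hp : p.Prime) [CharP F p]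
    (hP : IsPGroup p P) (v : E) (hv : v ≠ 0) : ∃ l : E →ₗ[F] F, ∀ g : P, l (g • v) = 1 := by
  have : Finite (Submodule F E) := Finite.of_injective _ SetLike.coe_injective
  obtain ⟨D, ⟨hD, vD⟩, mx⟩ := wellFounded_gt.has_min {D : Submodule F E |
    (∀ (g : P) w, w ∈ D → g • w ∈ D) ∧ v ∉ D} ⟨⊥, by simp, by simpa⟩
  obtain ⟨w, wD, hw⟩ := T.fixq (G := P) (a := 1) hp
    (fun w : E => by rw [pow_one, ← Nat.cast_smul_eq_nsmul F, CharP.cast_eq_zero, zero_smul])
    ⊤ (hP.to_subgroup ⊤) (D := D.toAddSubgroup) hD fun h => vD (by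
      have : v ∈ D.toAddSubgroup := h ▸ trivial
      exact this)
  have h1 : v ∈ D ⊔ F ∙ w := by
    by_contra h
    refine mx _ ⟨fun g x hx => ?_, h⟩ ⟨le_sup_left, fun k =>
      wD (k (Submodule.mem_sup_right (Submodule.mem_span_singleton_self w)))⟩
    obtain ⟨d, hd, y, hy, rfl⟩ := Submodule.mem_sup.1 hx
    obtain ⟨c, rfl⟩ := Submodule.mem_span_singleton.1 hy
    refine Submodule.mem_sup.2 ⟨g • d + c • (g • w - w), D.add_mem (hD g d hd)
      (D.smul_mem c (hw g trivial)), _, hy, ?_⟩
    rw [smul_add, smul_sub, smul_comm g c]; abel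
  obtain ⟨d, hd, y, hy, e⟩ := Submodule.mem_sup.1 h1
  obtain ⟨c, rfl⟩ := Submodule.mem_span_singleton.1 hy
  obtain ⟨f, f0, hf⟩ := D.exists_dual_map_eq_bot_of_notMem vD inferInstance
  refine ⟨(f v)⁻¹ • f, fun g => ?_⟩
  have h2 : g • v - v ∈ D := by
    have := D.add_mem (D.sub_mem (hD g d hd) hd) (D.smul_mem c (hw g trivial))
    convert this using 1
    rw [← e, smul_add, smul_sub, smul_comm g c]; abel
  have h3 : f (g • v - v) = 0 := (Submodule.mem_bot F).1 (hf ▸ Submodule.mem_map_of_mem h2)
  rw [map_sub, sub_eq_zero] at h3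
  simp [h3, f0]

theorem la {F N U P ι : Type} [Field F] [Finite F] [AddCommGroup N] [Module F N] [Finite N]
    [AddCommGroup U] [Module F U] [Finite U] [Nontrivial U] [Group P] [Fintype ι] {p : ℕ}
    (hp : p.Prime) [CharP F p] (hP : IsPGroup p P) (ρ : P →* End F N) (θ : P →* End F U)
    (M : N →ₗ[F] U) (hM : Function.Surjective M) (φ : ι → N →ₗ[F] F) (ω : ι → U)
    (hω : ∀ i, ω i ≠ 0) (hφ : ∀ n, (∀ i, φ i n = 0) → n = 0)
    (h : ∀ S : Finset ι, ∃ g, ∀ n, M n + ∑ i ∈ S, φ i n • ω i = θ g (M (ρ g⁻¹ n))) : False := by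
  classical
  have := Fact.mk hp
  let _ := Fintype.ofFinite N
  let e := Module.finBasis F U
  set d := finrank F U
  let _ : DistribMulAction P ((Fin d → N) → F) :=
    { smul := fun g f n => f fun l => ρ g⁻¹ (n l)
      one_smul := fun f => funext fun n => by
        show f (fun l => ρ 1⁻¹ (n l)) = f n
        simp
      mul_smul := fun g g' f => funext fun n => by
        show f (fun l => ρ (g * g')⁻¹ (n l)) = f fun l => ρ g'⁻¹ (ρ g⁻¹ (n l))
        simp
      smul_zero := fun _ => rfl
      smul_add := fun _ _ _ => rfl }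
  have : SMulCommClass P F ((Fin d → N) → F) := ⟨fun _ _ _ => rfl⟩
  obtain ⟨l, hl⟩ := func (F := F) hp hP (fun n : Fin d → N => e.det fun l => M (n l)) fun h0 => by
    choose n hn using fun l => hM (e l)
    have := congrFun h0 n
    simp only [hn] at this
    exact one_ne_zero (e.det_self.symm.trans this)
  have dt : ∀ g, LinearMap.det (θ g) = 1 := fun g => by
    obtain ⟨k, hk⟩ := hP g
    have : (LinearMap.det (θ g) - 1) ^ p ^ k = 0 := by
      rw [sub_pow_char_pow, ← map_pow, ← map_pow, hk]; simp
    exact sub_eq_zero.1 (pow_eq_zero_iff (pow_pos hp.pos k).ne' |>.1 this)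
  let K := AlgebraicClosure F
  let a := algebraMap F K
  let w : ι → Fin d → K := fun i j => a (e.repr (ω i) j)
  let Mat : (ι → K) → (Fin d → N) → Matrix (Fin d) (Fin d) K := fun t n =>
    (Matrix.of fun j l => a (e.repr (M (n l)) j)) +
      ∑ i, t i • vecMulVec (w i) fun l => a (φ i (n l))
  let Φ : (ι → K) → K := fun t =>
    ∑ n, det (Mat t n) * a (l fun j => if n = j then 1 else 0)
  have h1 : ∀ (T : Finset ι) (t : ι → K), (∀ i ∉ T, t i = 0 ∨ t i = 1) → Φ t = 1 := by
    intro T
    induction T using Finset.induction_on with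
    | empty =>
      intro t ht
      obtain ⟨g, hg⟩ := h (Finset.univ.filter fun i => t i = 1)
      have h2 := congrArg a (hl g)
      rw [LinearMap.pi_apply_eq_sum_univ, map_sum, map_one] at h2
      rw [← h2]
      refine Finset.sum_congr rfl fun n _ => ?_
      rw [smul_eq_mul, map_mul]
      congr 1
      show _ = a (e.det fun l => M (ρ g⁻¹ (n l)))
      rw [← one_mul (e.det _), ← dt g, ← e.det_comp, Basis.det_apply, RingHom.map_det]
      congr 1
      ext j k
      simp only [Mat, w, RingHom.mapMatrix_apply, map_apply, Basis.toMatrix_apply,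
        Function.comp_apply, ← hg, map_add, map_sum, map_smul, Finsupp.add_apply,
        Matrix.add_apply, of_apply, Matrix.sum_apply, Matrix.smul_apply, vecMulVec_apply,
        Finsupp.finset_sum_apply, smul_eq_mul, Finset.sum_filter]
      congr 1
      refine Finset.sum_congr rfl fun i _ => ?_
      rcases ht i (by simp) with k | k <;> simp [k, mul_comm]
    | insert i T hi ih =>
      intro t ht
      have h2 : ∀ n, ∃ α β : K, ∀ s, det (Mat (Function.update t i s) n) = α + s * β := fun n => by
        obtain ⟨α, β, h3⟩ := aff (Mat (Function.update t i 0) n) (w i) fun l => a (φ i (n l))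
        refine ⟨α, β, fun s => ?_⟩
        rw [← h3]
        congr 1
        simp only [Mat, add_assoc]
        congr 1
        rw [← Finset.add_sum_erase _ _ (Finset.mem_univ i),
          ← Finset.add_sum_erase _ _ (Finset.mem_univ i), Function.update_self,
          Function.update_self, zero_smul, zero_add, add_comm]
        congr 1
        exact Finset.sum_congr rfl fun k hk => by
          simp [Function.update_of_ne (Finset.ne_of_mem_erase hk)]
      choose α β h2 using h2
      have h3 : ∀ s, Φ (Function.update t i s) = (∑ n, α n * a (l fun j => if n = j then 1 else 0))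
          + s * ∑ n, β n * a (l fun j => if n = j then 1 else 0) := fun s => by
        rw [Finset.mul_sum, ← Finset.sum_add_distrib]
        exact Finset.sum_congr rfl fun n _ => by rw [h2]; ring
      have h4 : ∀ s : K, s = 0 ∨ s = 1 → Φ (Function.update t i s) = 1 := fun s hs =>
        ih _ fun k hk => by
          by_cases e : k = i
          · simpa [e] using hs
          · simpa [Function.update_of_ne e] using ht k (by simp [e, hk])
      have h5 := h4 0 (Or.inl rfl)
      have h6 := h4 1 (Or.inr rfl)
      have h7 := h3 (t i)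
      rw [h3] at h5 h6
      rw [Function.update_eq_self] at h7
      linear_combination h7 + (1 - t i) * h5 + t i * h6
  obtain ⟨ξ, hξ⟩ := Module.exists_dual_forall_apply_ne_zero (K := K) w fun i h0 => hω i
    (e.repr.map_eq_zero_iff.1 (Finsupp.ext fun j => (map_eq_zero a).1 (congrFun h0 j)))
  have h2 : ∀ j, ∃ c : ι → F, ∑ i, c i • φ i = (e.coord j).comp M := fun j =>
    (Submodule.mem_span_range_iff_exists_fun F).1 (mem_span_of_iInf_ker_le_ker fun n hn => by
      rw [hφ n fun i => (Submodule.mem_iInf _).1 hn i]; exact Submodule.zero_mem _)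
  choose c hc using h2
  let t : ι → K := fun i => -(ξ fun j => a (c j i)) / ξ (w i)
  have x0 : (fun j => ξ fun k => if j = k then 1 else 0) ≠ 0 := fun h0 => by
    obtain ⟨u, hu⟩ := exists_ne (0 : U)
    obtain ⟨n, rfl⟩ := hM u
    obtain ⟨i, -⟩ := not_forall.1 (mt (hφ n) fun k => hu (by rw [k, map_zero]))
    refine hξ i ?_
    rw [LinearMap.pi_apply_eq_sum_univ]
    exact Finset.sum_eq_zero fun j _ => by rw [congrFun h0 j]; simp
  refine zero_ne_one ((Finset.sum_eq_zero fun n _ => ?_).symm.trans
    (h1 Finset.univ t fun i hi => absurd (Finset.mem_univ i) hi))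
  rw [exists_vecMul_eq_zero_iff.1 ⟨_, x0, funext fun k => ?_⟩, zero_mul]
  have h3 : (fun j => Mat t n j k) =
      ∑ i, a (φ i (n k)) • ((fun j => a (c j i)) + t i • w i) := funext fun j => by
    have := LinearMap.congr_fun (hc j) (n k)
    simp only [LinearMap.sum_apply, LinearMap.smul_apply, smul_eq_mul, LinearMap.comp_apply,
      Basis.coord_apply] at this
    simp only [Mat, ← this, Matrix.add_apply, of_apply, Matrix.sum_apply, Matrix.smul_apply,
      vecMulVec_apply, map_sum, map_mul, Finset.sum_apply, Pi.smul_apply, Pi.add_apply,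
      smul_eq_mul, ← Finset.sum_add_distrib]
    exact Finset.sum_congr rfl fun i _ => by ring
  have h4 : ξ (fun j => Mat t n j k) = 0 := by
    rw [h3, map_sum]
    refine Finset.sum_eq_zero fun i _ => ?_
    rw [map_smul, map_add, map_smul, smul_eq_mul (t i), div_mul_cancel₀ _ (hξ i)]
    simp
  rw [LinearMap.pi_apply_eq_sum_univ] at h4
  simpa [vecMul, dotProduct, mul_comm] using h4

end Pool.Agent.P.MP_6d14ae_al.Z
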