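import Pool.Agent.P.MP_6d14ae_al.Z.Rel

/-! The family of surjections attached to the states. -/

set_option autoImplicit false

namespace Pool.Agent.P.MP_6d14ae_al.Z

open MulAction T
open S hiding Dat Lay c_one c_div facN ext_b triK next chi chi_one

variable {G X C V U : Type} [Group G] [MulAction G X] [AddCommGroup C] [DistribMulAction G C]
  [AddCommGroup V] [DistribMulAction G V] [AddCommGroup U] [DistribMulAction G U]
  {e : Dat G X C} {p a r : ℕ} (s : St e V p a r) {B : AddSubgroup C}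
  (hB : ∀ (g : G) v, v ∈ B → g • v ∈ B) (π : C → U)
  (πa : ∀ t ∈ B, ∀ t' ∈ B, π (t + t') = π t + π t') (πs : ∀ (g : G), ∀ t ∈ B, π (g • t) = g • π t)
  (πo : ∀ u, ∃ t ∈ B, π t = u)
  (irr : ∀ D : AddSubgroup U, (∀ (g : G) u, u ∈ D → g • u ∈ D) → D = ⊥ ∨ D = ⊤)
  (on : ∀ v, ∃ g, e.c g ∈ B ∧ s.τ g = v) (no : ¬∀ v, ∃ g, e.c g ∈ B ∧ π (e.c g) = 0 ∧ s.τ g = v)

include hB πa πs πo irr on no in
theorem mapM [Finite G] [IsPretransitive G X] [Nontrivial U]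
    (hO : ∀ o ∈ s.O, ∀ u : U, o • u = u) : ∃ M : C → V →+ U, Function.Surjective (M 0) ∧
    (∀ g n, M (e.c g) n = g • M 0 (g⁻¹ • n)) ∧ (∀ t x, ∀ n ∈ s.R x, M (t + e.b x) n = M t n) ∧
    ∀ x, ∃ t n, M (t + e.b x) n ≠ M t n := by
  have RP := rep s hB π πa πs irr on no hO
  have p0 : 0 < p ^ a := pow_pos s.hp.pos a
  have π0 : π 0 = 0 := by simpa using πa 0 B.zero_mem 0 B.zero_mem
  have πc : ∀ g h, e.c g ∈ B → e.c h ∈ B → π (e.c (g * h)) = π (e.c g) + g • π (e.c h) :=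
    fun g h hg hh => by rw [e.hc, πa _ hg _ (hB _ _ hh), πs _ _ hh]
  let Rl : G → V → U → Prop := fun g n u =>
    ∃ o ∈ s.O, e.c o ∈ B ∧ g • s.τ o = n ∧ g • π (e.c o) = u
  have Ra : ∀ g n u n' u', Rl g n u → Rl g n' u' → Rl g (n + n') (u + u') := by
    rintro g _ _ _ _ ⟨o, ho, a1, rfl, rfl⟩ ⟨o', ho', b1, rfl, rfl⟩
    exact ⟨o * o', mul_mem ho ho', (cz e.hc B hB).mul_mem a1 b1,
      by rw [s.hτ, s.hO o ho, smul_add], by rw [πc _ _ a1 b1, hO o ho, smul_add]⟩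
  have Rs : ∀ g n u n' u', Rl g (n + n') (u + u') → Rl g n u → Rl g n' u' := by
    rintro g _ _ n' u' ⟨o, ho, a1, a2, a3⟩ ⟨o', ho', b1, rfl, rfl⟩
    have h1 := (cz e.hc B hB).mul_mem ((cz e.hc B hB).inv_mem b1) a1
    have h2 := πc o' _ b1 h1
    have h3 := s.hτ o' (o'⁻¹ * o)
    rw [mul_inv_cancel_left] at h2 h3
    rw [h2, hO o' ho', smul_add, add_right_inj] at a3
    rw [h3, s.hO o' ho', smul_add, add_right_inj] at a2
    exact ⟨o'⁻¹ * o, mul_mem (inv_mem ho') ho, h1, a2, a3⟩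
  have R1 : ∀ g g1, e.c g1 - e.c g ∈ B → Rl g (s.τ g1 - s.τ g) (π (e.c g1 - e.c g)) :=
    fun g g1 h => by
      obtain ⟨o, ho, a1, a2, a3⟩ := RP (g⁻¹ * g1) (c_div e g g1 ▸ hB _ _ h)
      exact ⟨o, ho, a1, by rw [a2, f_div s.hτ, smul_inv_smul],
        by rw [a3, c_div, πs _ _ h, smul_inv_smul]⟩
  have R2 : ∀ g n u g0, Rl g n u → e.c g0 - e.c g ∈ B → ∃ g1, e.c g1 - e.c g ∈ B ∧
      s.τ g1 = s.τ g0 + n ∧ π (e.c g1 - e.c g) = π (e.c g0 - e.c g) + u := by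
    rintro g _ _ g0 ⟨o, ho, a1, rfl, rfl⟩ h
    have h1 : e.c (g⁻¹ * g0) ∈ B := c_div e g g0 ▸ hB _ _ h
    have h2 := (cz e.hc B hB).mul_mem a1 h1
    have h3 : e.c (g * (o * (g⁻¹ * g0))) - e.c g = g • e.c (o * (g⁻¹ * g0)) := by
      rw [e.hc g, add_sub_cancel_left]
    refine ⟨g * (o * (g⁻¹ * g0)), h3 ▸ hB _ _ h2, ?_, ?_⟩
    · rw [s.hτ, s.hτ o, s.hO o ho, f_div s.hτ, smul_add, smul_inv_smul]; abel
    · rw [h3, πs _ _ h2, πc _ _ a1 h1, hO o ho, c_div, πs _ _ h, smul_add, smul_inv_smul, add_comm]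
  have R0 : ∀ g v, ∃ g0, e.c g0 - e.c g ∈ B ∧ s.τ g0 = v := fun g v => by
    obtain ⟨h, h1, h2⟩ := on (g⁻¹ • (v - s.τ g))
    exact ⟨g * h, by simpa [e.hc] using hB g _ h1, by simp [s.hτ, h2]⟩
  have mv : ∀ g g' g0 x, e.c g' = e.c g + e.b x → e.c g0 - e.c g ∈ B → s.τ g0 - s.η x ∈ s.R x →
      Rl g' (s.τ g0 - s.τ g') (π (e.c g0 - e.c g)) := fun g g' g0 x h h1 h2 => by
    obtain ⟨g0', -, h3⟩ := e.hs (e.c g0 + e.b x)
    have h4 : e.c g0' - e.c g' = e.c g0 - e.c g := by rw [h3, h]; abel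
    have := R1 g' g0' (h4 ▸ h1)
    rwa [h4, s.sil g0 g0' x h2 h3] at this
  have R3 : ∀ g g' x, ∀ n ∈ s.R x, ∀ u, e.c g' = e.c g + e.b x → Rl g n u → Rl g' n u :=
    fun g g' x n hn u h h1 => by
      obtain ⟨g0, a1, a2⟩ := R0 g (s.η x)
      obtain ⟨g1, b1, b2, b3⟩ := R2 g n u g0 h1 a1
      have c1 := mv g g' g1 x h b1 (by rw [b2, a2]; simpa using hn)
      rw [b2, b3, add_sub_right_comm] at c1
      exact Rs _ _ _ _ _ c1 (mv g g' g0 x h a1 (by simp [a2]))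
  have R4 : ∀ g g' n u, e.c g' = e.c g → Rl g n u → Rl g' n u := fun g g' n u h h1 => by
    obtain ⟨g1, b1, b2, b3⟩ := R2 g n u g' h1 (by simp [h])
    have := R1 g' g1 (h ▸ b1)
    rwa [b2, h, b3, h, sub_self, π0, zero_add, add_sub_cancel_left] at this
  let D : AddSubgroup U :=
    { carrier := {u | Rl 1 0 u}
      zero_mem' := ⟨1, one_mem _, c_one e ▸ B.zero_mem, by simp [f_one s.hτ], by simp [c_one, π0]⟩
      add_mem' := fun {u v} hu hv => by simpa using Ra _ _ _ _ _ hu hv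
      neg_mem' := fun {u} hu => Rs 1 0 u 0 (-u) ⟨1, one_mem _, c_one e ▸ B.zero_mem,
        by simp [f_one s.hτ], by simp [c_one, π0]⟩ hu }
  have D0 : D = ⊥ := (irr D fun g u hu => by
    obtain ⟨o, ho, a1, a2, a3⟩ := gen e p0 s.hC (fun t => ∀ g, e.c g = t → Rl g 0 u)
      (fun g h => R4 1 g _ _ (h.trans (c_one e).symm) hu) (fun t x h g' h' => by
        obtain ⟨g, -, rfl⟩ := e.hs t
        exact R3 g g' x 0 (zero_mem _) u h' (h g rfl)) _ g⁻¹ rfl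
    exact ⟨o, ho, a1, by simpa [smul_eq_zero_iff_eq] using a2, by rw [one_smul, ← a3, smul_inv_smul]⟩).resolve_right
    fun k => no fun v => by
      obtain ⟨g, g1, rfl⟩ := on v
      obtain ⟨g', b1, b2, b3⟩ := R2 1 0 (-π (e.c g)) g
        (show -π (e.c g) ∈ D from k ▸ trivial) (by simpa [c_one] using g1)
      exact ⟨g', by simpa [c_one] using b1, by simpa [c_one] using b3, by simpa using b2⟩
  have fn : ∀ n u u', Rl 1 n u → Rl 1 n u' → u = u' := fun n u u' h h' => by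
    have : u - u' ∈ D := Rs 1 n u' 0 (u - u') (by simpa using h) h'
    rwa [D0, AddSubgroup.mem_bot, sub_eq_zero] at this
  have tot : ∀ n, ∃ u, Rl 1 n u := fun n => by
    obtain ⟨g, g1, rfl⟩ := on n
    obtain ⟨o, ho, a1, a2, -⟩ := RP g g1
    exact ⟨_, o, ho, a1, by rw [one_smul, a2], rfl⟩
  choose m hm using tot
  let M0 : V →+ U := AddMonoidHom.mk' m fun n n' => fn _ _ _ (hm _) (Ra _ _ _ _ _ (hm n) (hm n'))
  have RM : ∀ g n u, Rl g n u ↔ g • M0 (g⁻¹ • n) = u := fun g n u => by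
    constructor
    · rintro ⟨o, ho, a1, rfl, rfl⟩
      rw [inv_smul_smul]
      exact congrArg _ (fn _ _ _ (hm _) ⟨o, ho, a1, one_smul _ _, one_smul _ _⟩)
    · rintro rfl
      obtain ⟨o, ho, a1, a2, a3⟩ := hm (g⁻¹ • n)
      exact ⟨o, ho, a1, by rw [← one_smul G (s.τ o), a2, smul_inv_smul],
        by rw [← one_smul G (π _), a3]; rfl⟩
  choose σ σ1 σ2 using e.hs
  let M : C → V →+ U := fun t => (DistribSMul.toAddMonoidHom U (σ t)).comp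
    (M0.comp (DistribSMul.toAddMonoidHom V (σ t)⁻¹))
  have Mc : ∀ g n, M (e.c g) n = g • M0 (g⁻¹ • n) := fun g n =>
    (RM _ _ _).1 (R4 g _ _ _ (σ2 _) ((RM _ _ _).2 rfl))
  have M1 : ∀ n, M 0 n = M0 n := fun n => by simpa [c_one] using Mc 1 n
  have key : ∀ t ∈ B, M0 (s.τ (σ t)) = π t := fun t ht => by
    simpa [c_one, σ2, f_one s.hτ] using (RM _ _ _).1 (R1 1 (σ t) (by simpa [c_one, σ2] using ht))
  refine ⟨M, fun u => ?_, fun g n => by rw [Mc, M1], fun t x n hn =>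
    (RM _ _ _).1 (R3 (σ t) _ x n hn _ (by rw [σ2, σ2]) ((RM _ _ _).2 rfl)), ?_⟩
  · obtain ⟨t, ht, rfl⟩ := πo u
    exact ⟨_, (M1 _).trans (key t ht)⟩
  by_contra! h
  obtain ⟨x0, h⟩ := h
  have h1 : ∀ t x n, M (t + e.b x) n = M t n := fun t x n => by
    obtain ⟨g, rfl⟩ := exists_smul_eq G x0 x
    have eq : ∀ t n, M (e.c g + g • t) n = g • M t (g⁻¹ • n) := fun t n => by
      rw [← σ2 t, ← e.hc, Mc, Mc]; simp [mul_smul]
    rw [show t = e.c g + g • g⁻¹ • (t - e.c g) by simp, e.hb, add_assoc, ← smul_add, eq, eq, h]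
  have h2 : ∀ t n, M t n = M0 n :=
    gen e p0 s.hC (fun t => ∀ n, M t n = M0 n) M1 fun t x k n => (h1 t x n).trans (k n)
  have h3 : ∀ t, M0 (s.τ (σ t)) = 0 := gen e p0 s.hC _ ((key 0 B.zero_mem).trans π0) fun t x k => by
    obtain ⟨g0, a1, a2⟩ := R0 (σ t) (s.η x)
    have b1 := (RM _ _ _).1 (R1 _ _ a1)
    have b2 := (RM _ _ _).1 (mv (σ t) (σ (t + e.b x)) g0 x (by rw [σ2, σ2]) a1 (by simp [a2]))
    rw [← Mc, h2, map_sub] at b1 b2
    rw [← k]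
    exact sub_right_injective (b2.trans b1.symm)
  obtain ⟨u, hu⟩ := exists_ne (0 : U)
  obtain ⟨t, ht, rfl⟩ := πo u
  exact hu ((key t ht).symm.trans (h3 t))

end Pool.Agent.P.MP_6d14ae_al.Z
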