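import Pool.Agent.P.MP_6d14ae_al.Z.Sta
import Pool.Agent.P.MP_6d14ae_al.T.Main

/-! The sharp threshold when one prime carries the obstruction. -/

set_option autoImplicit false

namespace Pool.Agent.P.MP_6d14ae_al.Z

open MulAction T J

theorem ord_iff {r p : ℕ} (hp : 0 < p) (i : ℕ) : r ∣ p ^ i - 1 ↔ orderOf (p : ZMod r) ∣ i := by
  rw [orderOf_dvd_iff_pow_eq_one, ← Nat.modEq_iff_dvd' (Nat.one_le_pow _ _ hp),
    ← ZMod.natCast_eq_natCast_iff, Nat.cast_one, Nat.cast_pow, eq_comm]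

variable {G X E : Type} [Group G] [Finite G] [MulAction G X] [AddCommGroup E]
  [DistribMulAction G E] (κ : G ≃ E)
  (hκ : ∀ g h, κ (g * h) = κ g + g • κ h) (a : X → E) (ha : ∀ (g : G) x, a (g • x) = g • a x)
  (hg : AddSubgroup.closure (Set.range a) = ⊤)

include hκ ha hg

theorem nec [FaithfulSMul G X] [IsPretransitive G X] {r : ℕ} (hr : r.Prime)
    (h1 : r ∣ Nat.card G) (h2 : ¬r ∣ Nat.card X)
    (nT : ¬∃ p q i j : ℕ, p.Prime ∧ q.Prime ∧ p ≠ q ∧ 0 < i ∧ 0 < j ∧ p ^ (i + 1) ∣ Nat.card X ∧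
      r ∣ p ^ i - 1 ∧ q ^ j ∣ Nat.card X ∧ r ∣ q ^ j - 1) :
    (∃ p e : ℕ, p.Prime ∧ 0 < e ∧ p ^ (2 * e) ∣ Nat.card X ∧ r ∣ p ^ e - 1) ∨
      ∃ p : ℕ, p.Prime ∧ p ∣ orderOf (p : ZMod r) ∧
        p ^ (orderOf (p : ZMod r) + 1) ∣ Nat.card X := by
  obtain ⟨p, i, hp, hi, s1, s2⟩ := sing κ hκ a ha hg hr h1 h2
  have : Nonempty X := (Nat.card_ne_zero.1 fun h => h2 (h ▸ dvd_zero r)).1
  have := Fact.mk hr
  have k0 : 0 < orderOf (p : ZMod r) := isOfFinOrder_iff_pow_eq_one.2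
    ⟨i, hi, orderOf_dvd_iff_pow_eq_one.1 ((ord_iff hp.pos i).1 s2)⟩ |>.orderOf_pos
  have ki := Nat.le_of_dvd hi ((ord_iff hp.pos i).1 s2)
  by_contra H
  rw [not_or] at H
  have hk : ¬p ∣ orderOf (p : ZMod r) := fun h =>
    H.2 ⟨p, hp, h, (pow_dvd_pow p (by omega)).trans s1⟩
  have h2k : ¬p ^ (2 * orderOf (p : ZMod r)) ∣ Nat.card X := fun h =>
    H.1 ⟨p, _, hp, k0, h, (ord_iff hp.pos _).2 dvd_rfl⟩
  have sm : ∀ q : ℕ, q.Prime → q ≠ p → ∀ j, 0 < j → q ^ j ∣ Nat.card X → ¬r ∣ q ^ j - 1 :=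
    fun q hq hqp j hj t1 t2 => nT ⟨p, q, i, j, hp, hq, hqp.symm, hi, hj, s1, s2, t1, t2⟩
  have := solv κ hκ
  have sp : ∀ q : ℕ, q.Prime → ∃ j N, Nat.card G = N * q ^ j ∧ N.Coprime q := fun q hq => by
    obtain ⟨j, N, k1, k2⟩ :=
      Nat.exists_eq_pow_mul_and_not_dvd (Nat.card_pos (α := G)).ne' q hq.one_lt.ne'
    exact ⟨j, N, k2.trans (mul_comm _ _), (hq.coprime_iff_not_dvd.2 k1).symm⟩
  obtain ⟨b, M, hM, cM⟩ := sp r hr
  let _ := S.tact (G := G) (E := E) (r ^ b)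
  obtain ⟨d, d1, d2, d3, -⟩ := mkd κ hκ a ha hg hM (cM.pow_right b)
  have hW : ∀ w ∈ d.W, w ^ r ^ b = 1 := fun w hw => by rw [← d2]; exact d.hW w hw
  have ed : ∀ q : ℕ, q.Prime → q ≠ r → ∃ j, letI := S.tact (G := G) (E := E) (q ^ j)
      ∃ e : Dat G X (tor E (q ^ j)), e.N2 = q ^ j ∧ e.N1.Coprime q ∧ ∀ w ∈ d.W, e.c w = 0 :=
    fun q hq hqr => by
      obtain ⟨j, L, hL, cL⟩ := sp q hq
      obtain ⟨e, e1, e2, -, e4⟩ := mkd κ hκ a ha hg hL (cL.pow_right j)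
      refine ⟨j, e, e2, e1 ▸ cL, fun u hu => e4 u ?_⟩
      obtain ⟨t, ht⟩ := (Nat.coprime_pow_primes b j hr hq hqr.symm).dvd_of_dvd_mul_right
        (hL ▸ hM ▸ dvd_mul_left _ _)
      rw [d3] at hu
      rw [mem_tor, ht, mul_nsmul, show r ^ b • κ u = 0 from hu, smul_zero]
  obtain ⟨K, N, B, p', hN, I, hp', pn, k1, k2, k3, k4, k5, k6, k7⟩ := find (d := d)
    (by rw [d2]; exact (hr.coprime_iff_not_dvd.2 h2).pow_left b) ⊥ ⊥ (lay_bot d) fun h => by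
      have := (card_sub κ hκ (cM.pow_right b).symm (hM.trans (mul_comm _ _))).1
      rw [← d3, le_bot_iff.1 h, Subgroup.card_bot] at this
      rw [hM, ← this, mul_one] at h1
      exact hr.one_lt.ne' (Nat.eq_one_of_dvd_coprimes cM h1 dvd_rfl)
  have hrp : r ≠ p' := fun e => h2 (e ▸ pn)
  obtain rfl : p' = p := by
    by_contra h
    obtain ⟨j, j0, j1, j2⟩ := big d hr hp' hrp d2 hN I k1 k2 k3 k6 k7
    exact sm p' hp' h j j0 j1 j2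
  obtain ⟨j, e, e2, e1, e3⟩ := ed p' hp hrp.symm
  let _ := S.tact (G := G) (E := E) (p' ^ j)
  obtain ⟨O, hO, o1, o2, o3, o4, o5, o6, o7⟩ := top d e hr hp hrp d2 e2 (d1 ▸ cM) e1 hN I k1 k2 k3
    k4 k5 k6 k7 fun q hq hqp hqr M U hM hS l1 l2 l3 gn => by
      obtain ⟨j, e, e2, e1, e3⟩ := ed q hq hqr
      let _ := S.tact (G := G) (E := E) (q ^ j)
      exact ⟨e.N1, e1, qa e hq hr hqr.symm e2 (fun v => Subtype.ext v.2) h2 (sm q hq hqp) hW e3 hM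
        hS l1 l2 l3 gn⟩
  exact states e hr hp hrp e2 e1 (fun v => Subtype.ext v.2) h2 hk
    (fun i => (ord_iff hp.pos i).1) h2k hW e3 I.nor I.clo hO o1 o2 o3 o4 o5 o6 o7

end Pool.Agent.P.MP_6d14ae_al.Z
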