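import Pool.Agent.P.MP_6d14ae_al.Z.Co

/-! The linear relation between states and a top factor of the additive group. -/

set_option autoImplicit false

namespace Pool.Agent.P.MP_6d14ae_al.Z

open MulAction T
open S hiding Dat Lay c_one c_div facN ext_b triK next chi chi_one

variable {G X C V U : Type} [Group G] [MulAction G X] [AddCommGroup C] [DistribMulAction G C]
  [AddCommGroup V] [DistribMulAction G V] [AddCommGroup U] [DistribMulAction G U]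

/-- states, silent moves -/
structure St (e : Dat G X C) (V : Type) [AddCommGroup V] [DistribMulAction G V] (p a r : ℕ) where
  W : Subgroup G
  O : Subgroup G
  τ : G → V
  R : X → AddSubgroup V
  η : X → V
  hp : p.Prime
  hr : r.Prime
  hrp : r ≠ p
  he : e.N2 = p ^ a
  hpN : e.N1.Coprime p
  hC : ∀ v : C, p ^ a • v = 0
  hW : IsPGroup r W
  hWc : ∀ w ∈ W, e.c w = 0
  nO : O.Normal
  hO : ∀ o ∈ O, ∀ v : V, o • v = v
  hWO : ∀ g, ∀ w ∈ W, ∃ w' ∈ W, ∃ o ∈ O, g * w * g⁻¹ = w' * o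
  com : ∀ w ∈ W, ∀ w' ∈ W, w * w' * w⁻¹ * w'⁻¹ ∈ O
  hτ : ∀ g h, τ (g * h) = τ g + g • τ h
  τ0 : ∀ g, e.c g = 0 → τ g = 0
  hV : ∀ v : V, p • v = 0
  VW : ∀ v : V, (∀ w ∈ W, w • v = v) → v = 0
  sil : ∀ g g' x, τ g - η x ∈ R x → e.c g' = e.c g + e.b x → τ g' = τ g

variable {e : Dat G X C} {p a r : ℕ} (s : St e V p a r) {B : AddSubgroup C}
  (hB : ∀ (g : G) v, v ∈ B → g • v ∈ B) (π : C → U)
  (πa : ∀ t ∈ B, ∀ t' ∈ B, π (t + t') = π t + π t') (πs : ∀ (g : G), ∀ t ∈ B, π (g • t) = g • π t)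
  (irr : ∀ D : AddSubgroup U, (∀ (g : G) u, u ∈ D → g • u ∈ D) → D = ⊥ ∨ D = ⊤)
  (hU : ∀ u : U, p ^ a • u = 0)
  (on : ∀ v, ∃ g, e.c g ∈ B ∧ s.τ g = v) (no : ¬∀ v, ∃ g, e.c g ∈ B ∧ π (e.c g) = 0 ∧ s.τ g = v)

include hB πs irr hU on no in
theorem triv [Finite G] [Group.IsSolvable G] [Finite U] [Nontrivial U] :
    ∀ o ∈ s.O, ∀ u : U, o • u = u := by
  have := s.nO
  let Δ := (toPermHom G U).ker
  have hΔ : ∀ g, g ∈ Δ ↔ ∀ u : U, g • u = u := fun g => Equiv.ext_iff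
  by_contra h
  obtain ⟨q, hq, T, hT, l1, l2, k1, k2, -⟩ := elem2 Δ (s.O ⊔ Δ) ⟨le_sup_right, fun k =>
    h fun o ho => (hΔ o).1 (k (Subgroup.mem_sup_left ho))⟩
  have Y0 : ∀ u : U, (∀ t ∈ T, t • u = u) → u = 0 := fun u hu => by
    rcases irr (fv ⊥ (T : Set G)) (fv_sta (by simp) fun t ht g => hT.conj_mem' t ht g) with k | k
    · exact AddSubgroup.mem_bot.1 (k ▸ mem_fv.2 fun t ht => by simp [hu t ht])
    · exact absurd (fun t ht => (hΔ t).2 fun v => by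
        simpa [sub_eq_zero] using mem_fv.1 (show v ∈ fv ⊥ (T : Set G) from k ▸ trivial) t ht)
        l1.not_ge
  have fac : ∀ t ∈ T, ∃ u ∈ e.W, ∃ h, (h ∈ T ∧ h ∈ s.O) ∧ e.c h = 0 ∧ u ∈ T ∧
      (u * h)⁻¹ * t ∈ Δ := fun t ht => by
    obtain ⟨o, ho, δ, hδ, rfl⟩ := Subgroup.mem_sup_of_normal_right.1 (l2 ht)
    have oT : o ∈ T := by simpa using T.mul_mem ht (T.inv_mem (l1.le hδ))
    obtain ⟨u, hu, e1⟩ := e.hs (e.c o)
    have uT := facN e T hT oT hu e1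
    exact ⟨u, hu, u⁻¹ * o, ⟨mul_mem (inv_mem uT) oT, mul_mem (inv_mem (facN e _ this ho hu e1)) ho⟩,
      by rw [c_div, e1, sub_self, smul_zero], uT, by simpa using hδ⟩
  have red : ∀ v : U, (∀ u ∈ e.W, u ∈ T → u • v = v) →
      (∀ h, h ∈ T ∧ h ∈ s.O → e.c h = 0 → h • v = v) → v = 0 := fun v h1 h2 => Y0 v fun t ht => by
    obtain ⟨u, hu, h, hh, e1, uT, e2⟩ := fac t ht
    have := (hΔ _).1 e2 v
    rwa [mul_smul, inv_smul_eq_iff, mul_smul, h2 h hh e1, h1 u hu uT] at this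
  by_cases hqp : q = p
  · subst hqp
    obtain ⟨v, v0, hv⟩ := fixq hq hU e.W (fun u => ⟨a, Subtype.ext (s.he ▸ e.hW u u.2)⟩)
      (D := ⊥) (by simp) bot_ne_top
    exact v0 (red v (fun u hu _ => by simpa [sub_eq_zero] using hv u hu) fun h hh e1 =>
      (hΔ h).1 (cop Δ s.hpN (e.hP h e1 ▸ Δ.one_mem) (k2 h hh.1)) v)
  have := Fact.mk hq
  let Z := (T ⊓ s.O) ⊓ c0 e.hc
  obtain ⟨Q⟩ := (inferInstance : Nonempty (Sylow q Z))
  let Q' := Q.1.map Z.subtype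
  have hQ : ∀ h ∈ Q', h ∈ Z := fun h hh => by
    obtain ⟨z, -, rfl⟩ := hh
    exact z.2
  refine no fun v => ?_
  obtain ⟨g, g1, g2⟩ := on v
  obtain ⟨z, hz, e1⟩ := fixz e s.hp s.hC hq hqp (cz e.hc B hB ⊓ c0 s.hτ) Q' (Q.2.map _)
    (fun h e1 => ⟨show e.c h ∈ B from e1 ▸ B.zero_mem, s.τ0 h e1⟩) g (fun h hh => (hQ h hh).2)
    fun h hh => ⟨mul_mem (mul_mem ((cz e.hc B hB).inv_mem g1) (show e.c h ∈ B from
      (show e.c h = 0 from (hQ h hh).2) ▸ B.zero_mem)) g1, by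
      show s.τ _ = 0
      rw [mul_assoc, f_div s.hτ, s.hτ, s.τ0 h (hQ h hh).2, s.hO h (hQ h hh).1.2]; simp⟩
  have gz : e.c (g * z) ∈ B := (cz e.hc B hB).mul_mem g1 hz.1
  refine ⟨g * z, gz, red _ (fun u hu uT => (hΔ u).1 (cop Δ
    (((Nat.coprime_primes hq s.hp).2 hqp).pow_right a) (k2 u uT) (s.he ▸ e.hW u hu ▸ Δ.one_mem)) _)
    fun h hh e2 => ?_, by rw [s.hτ, show s.τ z = 0 from hz.2, smul_zero, add_zero, g2]⟩
  have l : Q' ⊔ Δ ≤ stabilizer G (π (e.c (g * z))) :=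
    sup_le (fun h hh => by rw [mem_stabilizer_iff, ← πs h _ gz, e1 h hh]) fun h hh => (hΔ h).1 hh _
  refine l (cop _ (hq.coprime_iff_not_dvd.2 fun k => Q.not_dvd_index ?_)
    (Subgroup.mem_sup_right (k2 h hh.1)) (nidx _ Z (fun a ha b hb =>
      Subgroup.mem_sup_right (k1 a ha.1.1 b hb.1.1)) h ⟨hh, e2⟩))
  have := k.trans (Subgroup.relIndex_dvd_of_le_left Z (le_sup_left : Q' ≤ Q' ⊔ Δ))
  rwa [Subgroup.relIndex, Subgroup.subgroupOf,
    Subgroup.comap_map_eq_self_of_injective Z.subtype_injective] at this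

include hB πa πs irr on no in
theorem rep [Finite G] (hO : ∀ o ∈ s.O, ∀ u : U, o • u = u) (g : G) (hg : e.c g ∈ B) :
    ∃ o ∈ s.O, e.c o ∈ B ∧ s.τ o = s.τ g ∧ π (e.c o) = π (e.c g) := by
  have := s.nO
  have π0 : π 0 = 0 := by simpa using πa 0 B.zero_mem 0 B.zero_mem
  have πc : ∀ g h, e.c g ∈ B → e.c h ∈ B → π (e.c (g * h)) = π (e.c g) + g • π (e.c h) :=
    fun g h hg hh => by rw [e.hc, πa _ hg _ (hB _ _ hh), πs _ _ hh]
  have cW : ∀ w ∈ s.W, e.c w ∈ B := fun w hw => s.hWc w hw ▸ B.zero_mem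
  have πi : ∀ o ∈ s.O, e.c o ∈ B → π (e.c o⁻¹) = -π (e.c o) := fun o ho h => by
    have := πc o o⁻¹ h ((cz e.hc B hB).inv_mem h)
    rw [mul_inv_cancel, c_one, π0, hO o ho] at this
    exact (neg_eq_of_add_eq_zero_right this.symm).symm
  have τi : ∀ o ∈ s.O, s.τ o⁻¹ = -s.τ o := fun o ho => by
    have := s.hτ o o⁻¹
    rw [mul_inv_cancel, f_one s.hτ, s.hO o ho] at this
    exact (neg_eq_of_add_eq_zero_right this.symm).symm
  have A : ∀ g, e.c g ∈ B → ∃ o ∈ s.O, e.c o ∈ B ∧ s.τ o = s.τ g ∧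
      ∀ w ∈ s.W, w • (π (e.c g) - π (e.c o)) = π (e.c g) - π (e.c o) := fun g hg => by
    obtain ⟨z, hz, e1⟩ := fixz e s.hp s.hC s.hr s.hrp (cz e.hc B hB ⊓ (s.O ⊔ c0 e.hc)) s.W s.hW
      (fun h e1 => ⟨show e.c h ∈ B from e1 ▸ B.zero_mem, Subgroup.mem_sup_right e1⟩) g s.hWc
      fun w hw => ⟨mul_mem (mul_mem ((cz e.hc B hB).inv_mem hg) (cW w hw)) hg, by
        obtain ⟨w', hw', o, ho, e1⟩ := s.hWO g⁻¹ w hw
        rw [inv_inv] at e1
        rw [e1]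
        exact mul_mem (Subgroup.mem_sup_right (s.hWc w' hw')) (Subgroup.mem_sup_left ho)⟩
    obtain ⟨o, ho, h, hh, rfl⟩ := Subgroup.mem_sup_of_normal_left.1 hz.2
    have h0 : e.c h = 0 := hh
    have oB : e.c o ∈ B := by simpa [cz, e.hc, h0] using hz.1
    have o1 := this.conj_mem o ho g
    have o2 : e.c (g * o * g⁻¹) ∈ B :=
      (cz e.hc B hB).mul_mem ((cz e.hc B hB).mul_mem hg oB) ((cz e.hc B hB).inv_mem hg)
    have e2 : e.c (g * (o * h)) = e.c (g * o * g⁻¹ * g) := by simp [e.hc, h0]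
    rw [e2] at e1
    generalize g * o * g⁻¹ = o' at e1 o1 o2
    have e3 : s.τ (o' * g) = 0 := s.VW _ fun w hw => by
      have h1 := s.τ0 ((o' * g)⁻¹ * (w * (o' * g))) (by
        rw [c_div, e.hc w, s.hWc w hw, zero_add, e1 w hw, sub_self, smul_zero])
      rwa [f_div s.hτ, smul_eq_zero_iff_eq, sub_eq_zero, s.hτ w, s.τ0 w (s.hWc w hw),
        zero_add] at h1
    rw [s.hτ, s.hO _ o1] at e3
    refine ⟨o'⁻¹, inv_mem o1, (cz e.hc B hB).inv_mem o2,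
      by rw [τi _ o1, neg_eq_of_add_eq_zero_right e3], fun w hw => ?_⟩
    have e4 := πc o' g o2 hg
    rw [hO _ o1] at e4
    rw [πi _ o1 o2, sub_neg_eq_add, add_comm, ← e4, ← πs w _ ((cz e.hc B hB).mul_mem o2 hg),
      e1 w hw]
  let Y := fv (A := U) ⊥ (s.W : Set G)
  have hY : ∀ u, u ∈ Y ↔ ∀ w ∈ s.W, w • u = u := fun u => by simp [Y, mem_fv, sub_eq_zero]
  rcases irr Y (fun g u hu => (hY _).2 fun w hw => by
    obtain ⟨w', hw', o, ho, e1⟩ := s.hWO g⁻¹ w hw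
    have := congrArg (· • u) e1
    simp only [mul_smul, inv_inv, hO o ho, (hY u).1 hu w' hw', inv_smul_eq_iff] at this
    exact this) with k | k
  · obtain ⟨o, ho, k1, k2, k3⟩ := A g hg
    have := (hY _).2 k3
    rw [k, AddSubgroup.mem_bot, sub_eq_zero] at this
    exact ⟨o, ho, k1, k2, this.symm⟩
  · refine absurd (fun v => ?_) no
    let D : AddSubgroup V :=
      { carrier := {v | ∃ o ∈ s.O, e.c o ∈ B ∧ π (e.c o) = 0 ∧ s.τ o = v}
        zero_mem' := ⟨1, one_mem _, c_one e ▸ B.zero_mem, c_one e ▸ π0, f_one s.hτ⟩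
        add_mem' := by
          rintro _ _ ⟨o, ho, a1, a2, rfl⟩ ⟨o', ho', b1, b2, rfl⟩
          exact ⟨o * o', mul_mem ho ho', (cz e.hc B hB).mul_mem a1 b1,
            by rw [πc _ _ a1 b1, a2, b2]; simp, by rw [s.hτ, s.hO o ho]⟩
        neg_mem' := by
          rintro _ ⟨o, ho, a1, a2, rfl⟩
          exact ⟨o⁻¹, inv_mem ho, (cz e.hc B hB).inv_mem a1, by rw [πi o ho a1, a2, neg_zero],
            τi o ho⟩ }
    obtain ⟨o, -, h⟩ := nf s.hp s.hr s.hrp s.hW s.hV s.VW D v fun w hw => by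
      obtain ⟨g, g1, rfl⟩ := on v
      obtain ⟨o, ho, a1, a2, -⟩ := A g g1
      have o1 := this.conj_mem o ho w
      have wi := s.hWc _ (inv_mem hw)
      have e1 : e.c (w * o * w⁻¹) = w • e.c o := by simp [e.hc, wi, s.hWc w hw]
      have o2 : e.c (w * o * w⁻¹) ∈ B := e1 ▸ hB _ _ a1
      have a3 := (cz e.hc B hB).inv_mem a1
      refine ⟨w * o * w⁻¹ * o⁻¹, mul_mem o1 (inv_mem ho), (cz e.hc B hB).mul_mem o2 a3, ?_, ?_⟩
      · rw [πc _ _ o2 a3, hO _ o1, πi o ho a1, e1, πs _ _ a1,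
          (hY _).1 (k ▸ trivial) w hw, add_neg_cancel]
      · rw [s.hτ, s.hO _ o1, τi o ho, s.hτ, s.hτ, s.τ0 _ wi, s.τ0 w (s.hWc w hw), a2]
        simp [sub_eq_add_neg]
    exact ⟨o, h⟩

end Pool.Agent.P.MP_6d14ae_al.Z
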