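import Pool.Agent.P.MP_6d14ae_al.Z.Hal

/-! The top layer is a layer of translations extended by the Sylow subgroup. -/

set_option autoImplicit false

namespace Pool.Agent.P.MP_6d14ae_al.Z

open MulAction T
open S hiding Dat Lay c_one c_div facN ext_b triK next chi chi_one

variable {G X A C : Type} [Group G]

/-- the centraliser of a normal subgroup modulo a normal subgroup -/
def cm (K N : Subgroup G) [K.Normal] : Subgroup G :=
  (Subgroup.centralizer (N.map (QuotientGroup.mk' K) : Set (G ⧸ K))).comap (QuotientGroup.mk' K)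

instance (K N : Subgroup G) [K.Normal] [hN : N.Normal] : (cm K N).Normal :=
  have := hN.map _ (QuotientGroup.mk'_surjective K)
  Subgroup.normal_comap _

theorem mem_cm {K N : Subgroup G} [K.Normal] {g : G} :
    g ∈ cm K N ↔ ∀ n ∈ N, Commute (n : G ⧸ K) g :=
  ⟨fun h n hn => h _ ⟨n, hn, rfl⟩, fun h => by
    rintro _ ⟨n, hn, rfl⟩
    exact h n hn⟩

theorem cm_iff {K : Subgroup G} [K.Normal] (a b : G) :
    Commute (a : G ⧸ K) b ↔ a⁻¹ * b * a * b⁻¹ ∈ K := by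
  rw [← QuotientGroup.eq_one_iff, commute_iff_eq]
  simp only [QuotientGroup.mk_mul, QuotientGroup.mk_inv, mul_inv_eq_one]
  rw [mul_assoc, inv_mul_eq_iff_eq_mul, eq_comm]

theorem cm_iff' {K : Subgroup G} [K.Normal] (a b : G) :
    Commute (a : G ⧸ K) b ↔ a * b * a⁻¹ * b⁻¹ ∈ K := by
  rw [← QuotientGroup.eq_one_iff, ← commutatorElement_eq_one_iff_commute]; rfl

theorem allq [Finite G] (O : Subgroup G) [O.Normal] {h : G}
    (H : ∀ q, q.Prime → ∃ k, k.Coprime q ∧ h ^ k ∈ O) : h ∈ O := by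
  by_contra h0
  obtain ⟨q, hq, h1⟩ := Nat.exists_prime_and_dvd
    (mt orderOf_eq_one_iff.1 (mt (QuotientGroup.eq_one_iff h).1 h0))
  obtain ⟨k, h2, h3⟩ := H q hq
  exact hq.coprime_iff_not_dvd.1 h2.symm (h1.trans (orderOf_dvd_of_pow_eq_one
    ((QuotientGroup.eq_one_iff (h ^ k)).2 h3)))

variable [Finite G] [MulAction G X] [AddCommGroup A] [DistribMulAction G A] [AddCommGroup C]
  [DistribMulAction G C] {K N : Subgroup G}

theorem big [IsPretransitive G X] (d : Dat G X A) {r p b : ℕ} (hr : r.Prime) (hp : p.Prime)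
    (hrp : r ≠ p) (hd : d.N2 = r ^ b) {B : AddSubgroup A} (hN : N.Normal) (I : Lay d K B)
    (hl : K < N) (h1 : ∀ a ∈ N, ∀ b ∈ N, a * b * a⁻¹ * b⁻¹ ∈ K) (h2 : ∀ a ∈ N, a ^ p ∈ K)
    (hW : d.W ≤ KK X N hN) (hWK : ¬d.W ≤ K) :
    ∃ i, 0 < i ∧ p ^ i ∣ Nat.card X ∧ r ∣ p ^ i - 1 := by
  have hK := I.nor
  obtain ⟨w, hw, w0⟩ := SetLike.not_le_iff_exists.1 hWK
  obtain ⟨y, hy⟩ := not_forall.1 (mt (inK hK hN I.clo h2
    (((Nat.coprime_primes hr hp).2 hrp).pow_left b) (hW hw) (hd ▸ d.hW w hw)) w0)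
  have c1 := fun a ha b hb => le_DD K hK y (h1 a ha b hb)
  have c2 := fun a ha => le_DD K hK y (h2 a ha)
  obtain ⟨F, a1, a2⟩ := cnt (DD K hK y) N d.W hr
    (fun u => ⟨b, Subtype.ext (hd ▸ d.hW u u.2)⟩) c1 (fun u _ n hn => hN.conj_mem n hn u)
    fun u hu => norL hK hN h1 y (hW hu)
  have l3 : F ≤ N := fun n hn => ((a1 n).1 hn).1
  obtain ⟨i, hi⟩ := pw _ N hp c1 c2
  obtain ⟨c, hc⟩ := pw _ F hp (fun a ha b hb => c1 a (l3 ha) b (l3 hb)) fun a ha => c2 a (l3 ha)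
  have l5 : c < i := by
    by_contra k
    exact hy fun n hn => ((a1 n).1 (eqN (D := DD K hK y) (fun n hn => (a1 n).2 ⟨hn.2, fun u hu => by
      simpa [mul_assoc] using mul_mem ((DD K hK y).inv_mem hn.1)
        (norL hK hN h1 y (hW hu) n hn.2 hn.1)⟩) l3
      (by rw [hi, hc]; exact Nat.pow_le_pow_right hp.pos (not_lt.1 k)) hn)).2 w hw
  refine ⟨i - c, by omega, (pow_dvd_pow p (Nat.sub_le i c)).trans ?_,
    ar hp hr hrp l5.le (hi ▸ hc ▸ a2)⟩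
  rw [← hi, ← rel_eq hK hN]
  exact (dvd_mul_left _ _).trans (rdvd hK y (DD_mono hK hN hl.le y))

theorem top (d : Dat G X A) (e : Dat G X C) {r p b a : ℕ} (hr : r.Prime) (hp : p.Prime)
    (hrp : r ≠ p) (hd : d.N2 = r ^ b) (he : e.N2 = p ^ a) (hrN : d.N1.Coprime r)
    (hpN : e.N1.Coprime p) {B : AddSubgroup A} (hN : N.Normal) (I : Lay d K B) (hl : K < N)
    (h1 : ∀ a ∈ N, ∀ b ∈ N, a * b * a⁻¹ * b⁻¹ ∈ K) (h2 : ∀ a ∈ N, a ^ p ∈ K)
    (min : ∀ M : Subgroup G, M.Normal → K < M → M ≤ N → N ≤ M)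
    (h3 : ∀ k ∈ KK X N hN, ∀ v, k • v - v ∈ B) (hW : d.W ≤ KK X N hN) (hWK : ¬d.W ≤ K)
    (QA : ∀ q, q.Prime → q ≠ p → q ≠ r → ∀ (M S : Subgroup G) (hM : M.Normal), S.Normal → M ≤ S →
      d.W ≤ S → (∀ y : X, S ≤ DD M hM y) → (∀ T, M ≤ T → (∀ g, ∀ w ∈ d.W, g⁻¹ * w * g ∈ T) → S ≤ T) →
      ∃ k, k.Coprime q ∧ ∀ s ∈ S, s ^ k ∈ M) :
    ∃ (O : Subgroup G) (hO : O.Normal), K ≤ O ∧ (∀ a ∈ O, a ^ p ∈ K) ∧
      (∀ a ∈ O, ∀ b ∈ O, a * b * a⁻¹ * b⁻¹ ∈ K) ∧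
      (∀ g, ∀ w ∈ d.W, ∃ w' ∈ d.W, ∃ o ∈ O, g * w * g⁻¹ = w' * o) ∧
      (∀ w ∈ d.W, ∀ w' ∈ d.W, w * w' * w⁻¹ * w'⁻¹ ∈ K) ∧ d.W ≤ KK X O hO ∧
      ¬∀ o ∈ O, ∀ w ∈ d.W, o⁻¹ * w * o * w⁻¹ ∈ K := by
  have hK := I.nor
  have hL := KK_normal (X := X) N hN
  have hle : N ≤ KK X N hN := fun n hn => mem_KK.2 fun y => ⟨n, hn, rfl⟩
  let O := KK X N hN ⊓ cm K N
  have hO : O.Normal := inferInstance
  have NO : N ≤ O := fun n hn => ⟨hle hn, mem_cm.2 fun m hm => (cm_iff' m n).2 (h1 m hm n hn)⟩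
  have sp : ∀ g ∈ O, ∀ y : X, ∃ n ∈ N, ∃ δ ∈ O, δ ∈ DD K hK y ∧ g = n * δ := fun g hg y => by
    obtain ⟨n, hn, e1⟩ := mem_KK.1 hg.1 y
    exact ⟨n, hn, n⁻¹ * g, mul_mem (inv_mem (NO hn)) hg, inv_mul_DD K hK e1, by simp⟩
  have tr : ∀ (y : X) (g g' : G), (g : G ⧸ K) = g' → g ∈ DD K hK y → g' ∈ DD K hK y :=
    fun y g g' h hg => by simpa using mul_mem hg (le_DD K hK y (QuotientGroup.eq.1 h))
  have O1 : ∀ g ∈ O, g ^ p ∈ K := fun g hg => I.clo _ fun y => by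
    obtain ⟨n, hn, δ, h4, h5, rfl⟩ := sp g hg y
    refine tr y _ _ ?_ (pow_mem h5 p)
    rw [QuotientGroup.mk_pow, QuotientGroup.mk_pow, QuotientGroup.mk_mul,
      (mem_cm.1 h4.2 n hn).mul_pow, ← QuotientGroup.mk_pow K n,
      (QuotientGroup.eq_one_iff _).2 (h2 n hn), one_mul]
  have O2 : ∀ g ∈ O, ∀ g' ∈ O, g * g' * g⁻¹ * g'⁻¹ ∈ K := fun g hg g' hg' => I.clo _ fun y => by
    obtain ⟨n, hn, δ, h4, h5, rfl⟩ := sp g hg y
    obtain ⟨n', hn', δ', h6, h7, rfl⟩ := sp g' hg' y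
    refine tr y _ _ ?_ (mul_mem (mul_mem (mul_mem h5 h7) (inv_mem h5)) (inv_mem h7))
    have a1 := (mem_cm.1 (hO.conj_mem _ hg' δ).2 n hn).mul_inv_cancel
    have a2 := (mem_cm.1 (mul_mem (hO.conj_mem _ h6 δ) (inv_mem h6)).2 n' hn').mul_inv_cancel
    have a3 := (mem_cm.1 h4.2 n' hn').eq
    simp only [QuotientGroup.mk_mul, QuotientGroup.mk_inv, mul_inv_rev] at a1 a2 ⊢
    rw [← a2, show ∀ n δ n' δ' : G ⧸ K, n * δ * (n' * δ') * (δ⁻¹ * n⁻¹) =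
      n * (δ * (n' * δ') * δ⁻¹) * n⁻¹ from fun _ _ _ _ => by group, a1, ← mul_assoc (δ : G ⧸ K), ← a3]
    group
  let S := O ⊔ Subgroup.normalClosure (d.W : Set G)
  have hS : S.Normal := inferInstance
  have SL : S ≤ KK X N hN := sup_le inf_le_left (Subgroup.normalClosure_le_normal hW)
  have WS : d.W ≤ S := fun w hw => Subgroup.mem_sup_right (Subgroup.subset_normalClosure hw)
  have LO : KK X N hN ≤ KK X O hO := fun g hg => mem_KK.2 fun y =>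
    let ⟨n, hn, e⟩ := mem_KK.1 hg y; ⟨n, NO hn, e⟩
  let T := S ⊓ cz d.hc B I.sta
  have hT : T.Normal := ⟨fun t ht g => ⟨hS.conj_mem t ht.1 g, by
    have := B.add_mem (I.sta g _ ht.2) (I.sta g _ (h3 t (SL ht.1) (d.c g⁻¹)))
    have h4 := d.hc g g⁻¹
    rw [mul_inv_cancel, c_one] at h4
    show d.c _ ∈ B
    convert this using 1
    rw [d.hc, d.hc, mul_smul, smul_sub, eq_neg_of_add_eq_zero_left h4.symm]; abel⟩⟩
  have T0 : ∀ h ∈ T, e.c h = 0 → h ∈ O := fun h hh h0 => allq O fun q hq => by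
    by_cases k : q = p
    · exact ⟨_, k ▸ hpN, e.hP h h0 ▸ O.one_mem⟩
    by_cases k' : q = r
    · obtain ⟨w, hw, e1⟩ := d.hs (d.c h)
      have := powmod K ⊤ (fun g _ m hm => hK.conj_mem m hm g)
        ((I.iff w hw).1 (e1 ▸ hh.2)) (Subgroup.mem_top (w⁻¹ * h)) d.N1
      rw [d.hP (w⁻¹ * h) (by rw [c_div, e1, sub_self, smul_zero])] at this
      exact ⟨_, k' ▸ hrN, NO (hl.le (by simpa using this))⟩
    obtain ⟨j, h4, h5⟩ := QA q hq k k' O S hO hS le_sup_left WS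
      (fun y g hg => mem_KK.1 (LO (SL hg)) y) fun Z a1 a2 => sup_le a1 ((Subgroup.closure_le _).2
        fun x hx => by
          obtain ⟨w, hw, h⟩ := Group.mem_conjugatesOfSet_iff.1 hx
          obtain ⟨g, rfl⟩ := isConj_iff.1 h
          simpa using a2 g⁻¹ w hw)
    exact ⟨j, h4, h5 h hh.1⟩
  have TO : T ≤ O := by
    obtain ⟨F, a1, a2⟩ := cnt K N (e.W ⊓ T) hp (IsPGroup.to_le
      (show IsPGroup p e.W from fun u => ⟨a, Subtype.ext (he ▸ e.hW u u.2)⟩) inf_le_left) h1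
      (fun u _ n hn => hN.conj_mem n hn u) fun u _ n _ h => hK.conj_mem n h u
    have l1 : F ≤ N ⊓ cm K T := fun n hn => ⟨((a1 n).1 hn).1, mem_cm.2 fun t ht => by
      obtain ⟨u, hu, e1⟩ := e.hs (e.c t)
      have uT := facN e T hT ht hu e1
      have b1 := mem_cm.1 (T0 _ (mul_mem (inv_mem uT) ht)
        (by rw [c_div, e1, sub_self, smul_zero])).2 n ((a1 n).1 hn).1
      simpa using (((cm_iff n u).2 (((a1 n).1 hn).2 u ⟨hu, uT⟩)).mul_right b1).symm⟩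
    have l2 := min (N ⊓ cm K T) inferInstance ⟨fun k hk => ⟨hl.le hk, mem_cm.2 fun t _ => by
      rw [(QuotientGroup.eq_one_iff k).2 hk]; exact Commute.one_right _⟩, fun h => by
        obtain ⟨i, hi⟩ := pw K N hp h1 h2
        rw [Subgroup.relIndex_eq_one.2 (l1.trans h), hi] at a2
        rcases i with _ | i
        · exact hl.not_ge (Subgroup.relIndex_eq_one.1 hi)
        · exact hp.one_lt.ne' (Nat.dvd_one.1 ((a2.dvd_iff dvd_rfl).1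
            (dvd_pow_self p i.succ_ne_zero)))⟩ inf_le_left
    exact fun t ht => ⟨SL ht.1, mem_cm.2 fun n hn => (mem_cm.1 (l2 hn).2 t ht).symm⟩
  refine ⟨O, hO, hl.le.trans NO, O1, O2, fun g w hw => ?_, fun w hw w' hw' => ?_, hW.trans LO,
    fun h => hWK fun w hw => inK hK hN I.clo h2 (((Nat.coprime_primes hr hp).2 hrp).pow_left b)
      (hW hw) (hd ▸ d.hW w hw) fun y n hn => le_DD K hK y (h n (NO hn) w hw)⟩
  · obtain ⟨w', hw', e1⟩ := d.hs (d.c (g * w * g⁻¹))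
    exact ⟨w', hw', w'⁻¹ * (g * w * g⁻¹), TO ⟨mul_mem (S.inv_mem (WS hw')) (hS.conj_mem _ (WS hw) g),
      show d.c _ ∈ B by rw [c_div, e1, sub_self, smul_zero]; exact B.zero_mem⟩, by simp⟩
  · exact (I.iff _ (mul_mem (mul_mem (mul_mem hw hw') (inv_mem hw)) (inv_mem hw'))).1
      ((chi_one (d := d) (L := KK X N hN)
      (k := ⟨w, hW hw⟩ * ⟨w', hW hw'⟩ * ⟨w, hW hw⟩⁻¹ * ⟨w', hW hw'⟩⁻¹) (h := h3)).1 (by
      simp only [map_mul, map_inv, mul_inv_cancel_comm, mul_inv_cancel]))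

end Pool.Agent.P.MP_6d14ae_al.Z
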