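import Pool.Agent.P.MP_6d14ae_al.Z.Nec
import Pool.Agent.P.MP_6d14ae_al.V.Evn

/-! A family twisted by a field automorphism whose order is the characteristic. -/

set_option autoImplicit false

namespace Pool.Agent.P.MP_6d14ae_al.Z

open Function J U

theorem h90 {F : Type} [Field F] {p : ℕ} [hp : Fact p.Prime] [CharP F p] (φ : F →+* F)
    (h : φ ^ p = 1) {μ : F} (hμ : φ μ ≠ μ) : ∃ g, φ g = g + 1 := by
  let T : AddMonoid.End F := φ.toAddMonoidHom
  have : Nontrivial (AddMonoid.End F) := ⟨0, 1, fun e => zero_ne_one (DFunLike.congr_fun e 1)⟩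
  have : CharP (AddMonoid.End F) p := (CharP.charP_iff_prime_eq_zero hp.1).2 (by
    ext x
    simp)
  have hT : ∀ k x, (T ^ k) x = (φ ^ k) x := fun k => by
    induction k with
    | zero => exact fun _ => rfl
    | succ k ih => exact fun x => by rw [pow_succ, pow_succ]; exact ih _
  have hD : (T - 1) ^ p = 0 := by
    rw [sub_pow_char_of_commute _ (Commute.one_right _), one_pow, sub_eq_zero]
    ext x
    rw [hT, h]
    rfl
  by_contra! H
  have k : ∀ (j : ℕ) x, ((T - 1) ^ (j + 1) : AddMonoid.End F) x = 0 → φ x - x = 0 := fun j => by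
    induction j with
    | zero => exact fun x hx => by rwa [zero_add, pow_one] at hx
    | succ j ih =>
      intro x hx
      rw [pow_succ] at hx
      have h1 : φ (φ x - x) - (φ x - x) = 0 := ih _ hx
      by_contra h0
      refine H (x / (φ x - x)) ?_
      rw [map_div₀, sub_eq_zero.1 h1]
      field_simp
      ring
  obtain ⟨j, hj⟩ := Nat.exists_eq_succ_of_ne_zero hp.1.ne_zero
  exact hμ (sub_eq_zero.1 (k j μ (by rw [← Nat.succ_eq_add_one, ← hj, hD]; rfl)))

theorem conT {F : Type} [Field F] [Fintype F] {N r : ℕ} [NeZero N] (hr : r.Prime) (φ : F →+* F)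
    (ν : ZMod N → F) (h1 : ∀ a, ν (a + 1) = φ (ν a)) (h2 : ∀ a, ν a ^ r = 1) (h3 : ν 1 ≠ ν 0)
    {g : F} (hg : φ g = g + 1) :
    ∃ (X : Type) (_ : Fintype X) (σ : X → Equiv.Perm X), Fintype.card X = N * Fintype.card F ∧
      (∀ x y z, σ (σ x y) (σ x z) = σ (σ y x) (σ y z)) ∧
      (¬ ∃ Y Z : Set X, Y.Nonempty ∧ Z.Nonempty ∧ Disjoint Y Z ∧ Y ∪ Z = Set.univ ∧
        (∀ y ∈ Y, ∀ z ∈ Z, σ y z ∈ Z) ∧ (∀ z ∈ Z, ∀ y ∈ Y, σ z y ∈ Y)) ∧
      r ∣ Nat.card (Subgroup.closure (Set.range σ)) := by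
  classical
  have := Fact.mk hr
  have n0 : ∀ a, ν a ≠ 0 := fun a e => by simpa [e, hr.ne_zero] using h2 a
  have g0 : g ≠ 0 := by
    rintro rfl
    simp at hg
  have g1 : g + 1 ≠ 0 := hg ▸ (map_ne_zero φ).2 g0
  obtain ⟨f, hf⟩ : ∃ f : ZMod N × F → ZMod N × F → ZMod N × F,
    ∀ s t, f s t = (t.1 + 1, ν s.1 * φ (t.2 + s.2 / g)) := ⟨_, fun _ _ => rfl⟩
  have inj : ∀ s, Injective (f s) := by
    rintro ⟨a, u⟩ ⟨b, v⟩ ⟨c, w⟩ e
    simpa [hf, n0, φ.injective.eq_iff] using e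
  obtain ⟨σ, hσ⟩ : ∃ σ : _ → Equiv.Perm _, ∀ s t, σ s t = f s t :=
    ⟨fun s => Equiv.ofBijective (f s) (Finite.injective_iff_bijective.1 (inj s)), fun _ _ => rfl⟩
  refine ⟨_, inferInstance, σ, by simp only [Fintype.card_prod, ZMod.card], ?_,
    indec_of_const fun P h => ?_, ?_⟩
  · rintro ⟨a, u⟩ ⟨b, v⟩ ⟨c, w⟩
    simp only [hσ, hf, Prod.mk.injEq, true_and, h1]
    have e : ∀ A u v, A * φ (w + u / g) + A * φ (v + u / g) / g =
        A * (φ w + φ u / g + φ v / g) := fun A u v => by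
      simp only [map_add, map_div₀, hg]
      field_simp
      ring
    rw [e, e, map_mul, map_mul, add_right_comm (φ w)]
    ring
  · have R : ∀ b v, P (b, v) ↔ P (b + 1, 0) := fun b v => by
      rw [h (0, -v * g), hσ, hf]
      simp [neg_div, g0]
    rintro ⟨b, v⟩ ⟨b', v'⟩ hp
    exact (R _ _).2 ((step (fun u => P (u, 0)) isUnit_one (fun u => R u 0) _ _).1 ((R _ _).1 hp))
  · let τ : GG σ := sg σ (1, 0) * (sg σ (0, 0))⁻¹
    have t : ∀ s, τ.1 s = (s.1, ν 1 / ν 0 * s.2) := fun s => by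
      obtain ⟨s, rfl⟩ := (σ (0, 0)).surjective s
      refine (congrArg (σ (1, 0)) ((σ (0, 0)).symm_apply_apply s)).trans ?_
      simp only [hσ, hf, Prod.mk.injEq, true_and]
      field_simp [n0]
    have tk : ∀ (k : ℕ) s, (τ.1 ^ k) s = (s.1, (ν 1 / ν 0) ^ k * s.2) := fun k => by
      induction k with
      | zero => simp
      | succ k ih => intro s; rw [pow_succ', Equiv.Perm.mul_apply, ih, t, pow_succ', mul_assoc]
    rw [← orderOf_eq_prime (x := τ) (p := r) (Subtype.ext (Equiv.ext fun s => ?_)) fun e => ?_]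
    · exact orderOf_dvd_natCard τ
    · refine (tk r s).trans ?_
      rw [div_pow, h2, h2]
      simp
    · have := t (0, 1)
      rw [e] at this
      have h4 : (1 : F) = ν 1 / ν 0 * 1 := congrArg Prod.snd this
      rw [mul_one, eq_div_iff (n0 0), one_mul] at h4
      exact h3 h4.symm

theorem tw {n r p : ℕ} (hn : 0 < n) (hr : r.Prime) (hrn : ¬r ∣ n) (hp : p.Prime)
    (h1 : p ∣ orderOf (p : ZMod r)) (h2 : p ^ (orderOf (p : ZMod r) + 1) ∣ n) :
    ∃ (X : Type) (_ : Fintype X) (σ : X → Equiv.Perm X), Fintype.card X = n ∧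
      (∀ x y z, σ (σ x y) (σ x z) = σ (σ y x) (σ y z)) ∧
      (¬ ∃ Y Z : Set X, Y.Nonempty ∧ Z.Nonempty ∧ Disjoint Y Z ∧ Y ∪ Z = Set.univ ∧
        (∀ y ∈ Y, ∀ z ∈ Z, σ y z ∈ Z) ∧ (∀ z ∈ Z, ∀ y ∈ Y, σ z y ∈ Y)) ∧
      r ∣ Nat.card (Subgroup.closure (Set.range σ)) := by
  classical
  have := Fact.mk hp
  have := Fact.mk hr
  have p0 : (p : ZMod r) ≠ 0 := fun e => hrn
    (((ZMod.natCast_eq_zero_iff p r).1 e).trans ((dvd_pow_self p (by omega)).trans h2))
  have e0 : 0 < orderOf (p : ZMod r) := isOfFinOrder_iff_pow_eq_one.2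
    ⟨r - 1, Nat.sub_pos_of_lt hr.one_lt, ZMod.pow_card_sub_one_eq_one p0⟩ |>.orderOf_pos
  have oi := ord_iff (r := r) hp.pos
  generalize orderOf (p : ZMod r) = e at *
  obtain ⟨m, rfl⟩ := h2
  obtain ⟨f, hf⟩ := h1
  have f0 : 0 < f := Nat.pos_of_mul_pos_left (hf ▸ e0)
  have m0 := Nat.pos_of_mul_pos_left hn
  have : Fact (1 < p * m) := ⟨hp.one_lt.trans_le (Nat.le_mul_of_pos_right p m0)⟩
  let _ := Fintype.ofFinite (GaloisField p e)
  have hc : Fintype.card (GaloisField p e) = p ^ e := by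
    rw [← Nat.card_eq_fintype_card, GaloisField.card p e e0.ne']
  obtain ⟨α, hα⟩ := exists_prime_orderOf_dvd_card (G := (GaloisField p e)ˣ) r
    (by rw [Fintype.card_units, hc, oi])
  let φ := iterateFrobenius (GaloisField p e) p f
  have hk : ∀ k x, (φ ^ k) x = x ^ p ^ (f * k) := fun k => by
    induction k with
    | zero => simp
    | succ k ih =>
      intro x
      rw [pow_succ', RingHom.mul_def, RingHom.comp_apply, ih, iterateFrobenius_def, ← pow_mul,
        ← pow_add, mul_add_one]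
  have hφ : φ ^ p = 1 := RingHom.ext fun x => by
    rw [hk, mul_comm, ← hf, ← hc]
    exact FiniteField.pow_card x
  have hμ : φ α ≠ α := fun h => by
    have h3 : α ^ p ^ f = α ^ 1 := Units.ext (by
      rw [Units.val_pow_eq_pow_val, pow_one]
      exact h)
    rw [pow_eq_pow_iff_modEq, hα] at h3
    have h4 := Nat.le_of_dvd f0
      ((oi f).1 ((Nat.modEq_iff_dvd' (Nat.one_le_pow _ _ hp.pos)).1 h3.symm))
    have := hp.two_le
    nlinarith
  obtain ⟨g, hg⟩ := h90 φ hφ hμ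
  have := conT (N := p * m) hr φ (fun a => (φ ^ a.val) α) (fun a => by
      rw [ZMod.val_add, ← pow_eq_pow_mod _ (by rw [pow_mul, hφ, one_pow]), ZMod.val_one, pow_succ']
      rfl)
    (fun a => by
      rw [← map_pow, ← hα, ← Units.val_pow_eq_pow_val, pow_orderOf_eq_one, Units.val_one, map_one])
    (by simpa [ZMod.val_one] using hμ) hg
  rwa [hc, show p * m * p ^ e = p ^ (e + 1) * m by ring] at this

end Pool.Agent.P.MP_6d14ae_al.Z
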